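import Pool.Agent.Work.MP_7ec17a_gt_D.Interface

/-!
# MP_7ec17a_gt, Theorem D: block HOPF

Three support points in counterclockwise order fix the rotation number of the chord argument.
-/

set_option autoImplicit false

open Set

namespace Pool.MP_7ec17a_gt.D

open Pool.MP_7ec17a_gt.T Pool.MP_7ec17a_gt.M

lemma hopf_strip_open : IsOpen Strip := by
  unfold Strip
  exact (isOpen_lt continuous_fst continuous_snd).inter
    (isOpen_lt continuous_snd (continuous_fst.add continuous_const))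

lemma hopf_strip_convex : Convex ℝ Strip := by
  rintro ⟨a, b⟩ ⟨h1, h2⟩ ⟨c, d⟩ ⟨h3, h4⟩ x y hx hy hxy
  simp only at h1 h2 h3 h4
  constructor
  · simp only [Prod.smul_mk, Prod.mk_add_mk, smul_eq_mul]
    rcases hx.eq_or_lt with rfl | hx'
    · have : y = 1 := by linarith
      subst this
      linarith
    · nlinarith [mul_lt_mul_of_pos_left h1 hx', mul_le_mul_of_nonneg_left h3.le hy]
  · simp only [Prod.smul_mk, Prod.mk_add_mk, smul_eq_mul]
    rcases hx.eq_or_lt with rfl | hx'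
    · have : y = 1 := by linarith
      subst this
      linarith
    · nlinarith [mul_lt_mul_of_pos_left h2 hx', mul_le_mul_of_nonneg_left h4.le hy]

lemma hopf_chord {f : ℝ → ℂ} (hf : Crv f) {z : ℝ × ℝ} (hz : z ∈ Strip) : f z.2 - f z.1 ≠ 0 := by
  intro h
  obtain ⟨n, hn⟩ := hf.inj _ _ (sub_eq_zero.1 h)
  have h1 : z.1 < z.2 := hz.1
  have h2 : z.2 < z.1 + 1 := hz.2
  have h3 : (0 : ℝ) < n := by linarith
  have h4 : (n : ℝ) < 1 := by linarith
  have h5 : (0 : ℤ) < n := by exact_mod_cast h3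
  have h6 : n < (1 : ℤ) := by exact_mod_cast h4
  omega

/-- An angle with nonnegative sine differs by a multiple of `2 π` from one in `[0, π]`. -/
lemma hopf_shift {φ : ℝ} (h : 0 ≤ Real.sin φ) :
    ∃ n : ℤ, 0 ≤ φ + n * (2 * Real.pi) ∧ φ + n * (2 * Real.pi) ≤ Real.pi := by
  have hpi := Real.pi_pos
  have h2 : (0 : ℝ) < 2 * Real.pi := by linarith
  refine ⟨-toIcoDiv h2 0 φ, ?_⟩
  have h3 := toIcoMod_mem_Ico h2 0 φ
  have h4 : φ + ((-toIcoDiv h2 0 φ : ℤ) : ℝ) * (2 * Real.pi) = toIcoMod h2 0 φ := by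
    unfold toIcoMod
    rw [zsmul_eq_mul]
    push_cast
    ring
  have h5 : 0 ≤ Real.sin (φ + ((-toIcoDiv h2 0 φ : ℤ) : ℝ) * (2 * Real.pi)) := by
    rw [Real.sin_add_int_mul_two_pi]
    exact h
  rw [h4] at h5 ⊢
  set ψ := toIcoMod h2 0 φ
  rw [zero_add] at h3
  refine ⟨h3.1, ?_⟩
  by_contra h6
  push Not at h6
  have h7 : Real.sin ψ = - Real.sin (ψ - Real.pi) := by
    rw [Real.sin_sub_pi]; ring
  have h8 : 0 < Real.sin (ψ - Real.pi) :=
    Real.sin_pos_of_pos_of_lt_pi (by linarith) (by linarith [h3.2])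
  linarith

/-- The row of a support point. -/
lemma hopf_row {f : ℝ → ℂ} {θ : ℝ × ℝ → ℝ} (hf : Crv f) (hc : ContinuousOn θ Strip)
    (hp : ∀ z ∈ Strip, Pol (f z.2 - f z.1) (θ z)) {s φ : ℝ} (h : ∀ t, 0 ≤ up φ (f t - f s)) :
    ∃ k : ℤ, ∀ s' : ℝ, s < s' → s' < s + 1 →
      φ + k * (2 * Real.pi) ≤ θ (s, s') ∧ θ (s, s') ≤ φ + k * (2 * Real.pi) + Real.pi := by
  have hsin : ∀ s' : ℝ, s < s' → s' < s + 1 → 0 ≤ Real.sin (θ (s, s') - φ) := by
    intro s' h1 h2
    have hz : ((s, s') : ℝ × ℝ) ∈ Strip := ⟨h1, h2⟩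
    have h3 := h s'
    have h4 := up_pol (hp _ hz) φ
    have h5 : 0 < ‖f s' - f s‖ := norm_pos_iff.2 (hopf_chord hf hz)
    simp only at h4
    rw [h4] at h3
    by_contra hlt
    push Not at hlt
    have := mul_neg_of_pos_of_neg h5 hlt
    linarith
  obtain ⟨n, hn1, hn2⟩ := hopf_shift (hsin (s + 1 / 2) (by linarith) (by linarith))
  have hcon : ContinuousOn (fun s' : ℝ => θ (s, s') - φ + n * (2 * Real.pi)) (Ioo s (s + 1)) := by
    refine ContinuousOn.add (ContinuousOn.sub ?_ continuousOn_const) continuousOn_const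
    refine hc.comp (by fun_prop) ?_
    intro s' hs'
    exact ⟨hs'.1, hs'.2⟩
  have key := stay_nn (isPreconnected_Ioo (a := s) (b := s + 1)) hcon (fun s' hs' => by
    rw [Real.sin_add_int_mul_two_pi]
    exact hsin s' hs'.1 hs'.2) (z0 := s + 1 / 2) ⟨by linarith, by linarith⟩ ⟨hn1, hn2⟩
  refine ⟨-n, fun s' h1 h2 => ?_⟩
  have := key s' ⟨h1, h2⟩
  push_cast
  constructor
  · linarith [this.1]
  · linarith [this.2]

/-- the integer arithmetic -/
lemma hopf_int {k : ℤ} {x : ℝ} (h : (k : ℝ) * (2 * Real.pi) ≤ x) (hx : x < 2 * Real.pi) :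
    k < 1 := by
  have hpi := Real.pi_pos
  by_contra hk
  push Not at hk
  have : (1 : ℝ) ≤ k := by exact_mod_cast hk
  nlinarith

theorem stmt_HOPF : Stmt_HOPF := by
  intro f s1 s2 s3 φ1 φ2 φ3 hf h12 h23 h31 g12 g23 g31 u1 u2 u3
  have hpi := Real.pi_pos
  have hF : ContinuousOn (fun z : ℝ × ℝ => f z.2 - f z.1) Strip := by
    have := hf.cont
    fun_prop
  obtain ⟨θ, hθc, hθp⟩ := exists_arg hopf_strip_convex hopf_strip_open
    ⟨(0, 1 / 2), by constructor <;> norm_num⟩ hF (fun z hz => hopf_chord hf hz)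
  have hp : ∀ z ∈ Strip, Pol (f z.2 - f z.1) (θ z) := hθp
  -- the integer `m`
  have hmem : ∀ z ∈ Strip, ((z.2, z.1 + 1) : ℝ × ℝ) ∈ Strip := fun z hz =>
    ⟨hz.2, by have := hz.1; simp only; linarith⟩
  have hint : ∀ z ∈ Strip, ∃ n : ℤ,
      (θ (z.2, z.1 + 1) - θ z - Real.pi) / (2 * Real.pi) = n := by
    intro z hz
    have h1 := hp _ (hmem z hz)
    simp only at h1
    have h2 : Pol (f (z.1 + 1) - f z.2) (θ z + Real.pi) := by
      have h3 := hp z hz
      rw [hf.per]
      unfold Pol at h3 ⊢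
      rw [Real.cos_add_pi, Real.sin_add_pi]
      have h4 : f z.1 - f z.2 = -(f z.2 - f z.1) := by ring
      rw [h4, norm_neg, Complex.neg_re, Complex.neg_im, h3.1, h3.2]
      constructor
      · rw [← h3.1]
        have := h3.1
        linarith
      · rw [← h3.2]
        have := h3.2
        linarith
    have h0 : f (z.1 + 1) - f z.2 ≠ 0 := hopf_chord hf (hmem z hz)
    obtain ⟨n, hn⟩ := h1.diff h2 h0
    refine ⟨n, ?_⟩
    rw [div_eq_iff (by positivity), ← hn]
    ring
  have hcon : ContinuousOn (fun z : ℝ × ℝ =>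
      (θ (z.2, z.1 + 1) - θ z - Real.pi) / (2 * Real.pi)) Strip := by
    refine ContinuousOn.div_const (ContinuousOn.sub (ContinuousOn.sub ?_ hθc)
      continuousOn_const) _
    exact hθc.comp (by fun_prop) hmem
  have h0mem : ((0, 1 / 2) : ℝ × ℝ) ∈ Strip := by constructor <;> norm_num
  obtain ⟨m, hm⟩ := hint _ h0mem
  have hturn : ∀ s s' : ℝ, s < s' → s' < s + 1 →
      θ (s', s + 1) = θ (s, s') + Real.pi + m * (2 * Real.pi) := by
    intro s s' h1 h2
    have hz : ((s, s') : ℝ × ℝ) ∈ Strip := ⟨h1, h2⟩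
    have h3 := int_const hopf_strip_convex.isPreconnected hcon hint hz h0mem
    simp only at h3 hm
    rw [hm, div_eq_iff (by positivity)] at h3
    linarith
  obtain ⟨k1, hk1⟩ := hopf_row hf hθc hp u1
  obtain ⟨k2, hk2⟩ := hopf_row hf hθc hp u2
  obtain ⟨k3, hk3⟩ := hopf_row hf hθc hp u3
  -- the crossing of the row of `s1` and the column of `s2`
  have c12 : k2 = k1 + m := by
    have a := hk1 s2 h12 (by linarith)
    have b := hk2 (s1 + 1) (by linarith) (by linarith)
    rw [hturn s1 s2 h12 (by linarith)] at b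
    have e1 : k1 - k2 + m < 1 := by
      refine hopf_int (x := φ2 - φ1) ?_ (by linarith)
      push_cast
      linarith [a.1, b.2]
    have e2 : k2 - k1 - m < 1 := by
      refine hopf_int (x := 2 * Real.pi + φ1 - φ2) ?_ (by linarith)
      push_cast
      linarith [a.2, b.1]
    omega
  have c23 : k3 = k2 + m := by
    have a := hk2 s3 h23 (by linarith)
    have b := hk3 (s2 + 1) (by linarith) (by linarith)
    rw [hturn s2 s3 h23 (by linarith)] at b
    have e1 : k2 - k3 + m < 1 := by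
      refine hopf_int (x := φ3 - φ2) ?_ (by linarith)
      push_cast
      linarith [a.1, b.2]
    have e2 : k3 - k2 - m < 1 := by
      refine hopf_int (x := 2 * Real.pi + φ2 - φ3) ?_ (by linarith)
      push_cast
      linarith [a.2, b.1]
    omega
  have c31 : k3 = k1 + m := by
    have a := hk1 s3 (by linarith) (by linarith)
    have b := hk3 (s1 + 1) (by linarith) (by linarith)
    rw [hturn s1 s3 (by linarith) (by linarith)] at b
    have e1 : k1 + m - k3 < 1 := by
      refine hopf_int (x := φ3 - φ1) ?_ (by linarith)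
      push_cast
      linarith [a.1, b.2]
    have e2 : k3 - k1 - m < 1 := by
      refine hopf_int (x := 2 * Real.pi + φ1 - φ3) ?_ (by linarith)
      push_cast
      linarith [a.2, b.1]
    omega
  have hm0 : m = 0 := by omega
  refine ⟨θ, hθc, hp, fun s s' h1 h2 => ?_⟩
  rw [hturn s s' h1 h2, hm0]
  push_cast
  ring

end Pool.MP_7ec17a_gt.D
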