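import Pool.Agent.Work.MP_7ec17a_gt_D.SUPP

/-!
# MP_7ec17a_gt, Theorem D: block MONO (helper42)

Lifted directions are monotone.
-/

set_option autoImplicit false

open Set

namespace Pool.MP_7ec17a_gt.D

open Pool.MP_7ec17a_gt.T Pool.MP_7ec17a_gt.M

lemma mono_row {f : ℝ → ℂ} {θ : ℝ × ℝ → ℝ} (hL : Lift f θ) {s ψ : ℝ} (h : Sup f θ s ψ) (n : ℕ) :
    ∀ s' : ℝ, s - n < s' → s' < s - n + 1 →
      ψ - n * (2 * Real.pi) ≤ θ (s - n, s') ∧ θ (s - n, s') ≤ ψ - n * (2 * Real.pi) + Real.pi := by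
  intro s' h1 h2
  have h3 := supp_shift hL (n : ℤ) (s - n) s' h1 h2
  rw [Int.cast_natCast, sub_add_cancel] at h3
  have h4 := h.row (s' + n) (by linarith) (by linarith)
  rw [h3] at h4
  constructor
  · linarith [h4.1]
  · linarith [h4.2]

theorem stmt_MONO : Stmt_MONO := by
  intro f θ s1 s2 ψ1 ψ2 hf hL h1 h2 hψ
  by_contra hlt
  push Not at hlt
  have hpi := Real.pi_pos
  obtain ⟨n, hn1, hn2⟩ : ∃ n : ℕ, s2 < s1 - n ∧ s1 - n ≤ s2 + 1 := by
    have hc : 0 < ⌈s1 - s2⌉₊ := Nat.ceil_pos.2 (by linarith)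
    refine ⟨⌈s1 - s2⌉₊ - 1, ?_, ?_⟩
    · have h3 := Nat.ceil_lt_add_one (a := s1 - s2) (by linarith)
      have h4 : ((⌈s1 - s2⌉₊ - 1 : ℕ) : ℝ) = (⌈s1 - s2⌉₊ : ℝ) - 1 := by
        rw [Nat.cast_sub (by omega)]; norm_num
      rw [h4]
      linarith
    · have h3 := Nat.le_ceil (s1 - s2)
      have h4 : ((⌈s1 - s2⌉₊ - 1 : ℕ) : ℝ) = (⌈s1 - s2⌉₊ : ℝ) - 1 := by
        rw [Nat.cast_sub (by omega)]; norm_num
      rw [h4]
      linarith
  have hn0 : (0 : ℝ) ≤ n * (2 * Real.pi) := by positivity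
  rcases hn2.lt_or_eq with hlt2 | heq
  · have hcol := supp_col hL (mono_row hL h1 n) s2 (by linarith) hn1
    have hrow := h2.row (s1 - n) hn1 hlt2
    linarith [hcol.2, hrow.1]
  · have hrow1 := mono_row hL h1 (n + 1) (s2 + 1 / 2) (by push_cast; linarith)
      (by push_cast; linarith)
    have hrow2 := h2.row (s2 + 1 / 2) (by linarith) (by linarith)
    have e : s1 - ((n + 1 : ℕ) : ℝ) = s2 := by push_cast; linarith
    rw [e] at hrow1
    have h5 := hrow1.2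
    push_cast at h5
    nlinarith [hrow2.1]

end Pool.MP_7ec17a_gt.D
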