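import Pool.Agent.Work.MP_7ec17a_gt_D.Interface

/-!
# MP_7ec17a_gt, Theorem D: block ORI

Orientation: one of the two parametrisations has a normalised lift.
-/

set_option autoImplicit false

open Set

namespace Pool.MP_7ec17a_gt.D

open Pool.MP_7ec17a_gt.T Pool.MP_7ec17a_gt.M

lemma ori_re (θ : ℝ) (w : ℂ) : w.re = rt θ w * Real.cos θ - up θ w * Real.sin θ := by
  unfold up rt
  have h := Real.sin_sq_add_cos_sq θ
  calc w.re = w.re * 1 := (mul_one _).symm
    _ = w.re * (Real.sin θ ^ 2 + Real.cos θ ^ 2) := by rw [h]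
    _ = _ := by ring

lemma ori_im (θ : ℝ) (w : ℂ) : w.im = rt θ w * Real.sin θ + up θ w * Real.cos θ := by
  unfold up rt
  have h := Real.sin_sq_add_cos_sq θ
  calc w.im = w.im * 1 := (mul_one _).symm
    _ = w.im * (Real.sin θ ^ 2 + Real.cos θ ^ 2) := by rw [h]
    _ = _ := by ring

lemma ori_sq (θ : ℝ) (w : ℂ) : up θ w ^ 2 + rt θ w ^ 2 = ‖w‖ ^ 2 := by
  rw [← Complex.normSq_eq_norm_sq, Complex.normSq_apply]
  unfold up rt
  have h := Real.sin_sq_add_cos_sq θ
  calc (w.im * Real.cos θ - w.re * Real.sin θ) ^ 2 + (w.re * Real.cos θ + w.im * Real.sin θ) ^ 2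
      = (w.re * w.re + w.im * w.im) * (Real.sin θ ^ 2 + Real.cos θ ^ 2) := by ring
    _ = _ := by rw [h, mul_one]

lemma ori_abs (θ : ℝ) (w : ℂ) : |up θ w| ≤ ‖w‖ := by
  have h := ori_sq θ w
  refine abs_le_of_sq_le_sq ?_ (norm_nonneg _)
  nlinarith [sq_nonneg (rt θ w)]

lemma ori_up_sub (θ : ℝ) (z w : ℂ) : up θ (z - w) = up θ z - up θ w := by
  unfold up
  rw [Complex.sub_re, Complex.sub_im]
  ring

lemma ori_rt_sub (θ : ℝ) (z w : ℂ) : rt θ (z - w) = rt θ z - rt θ w := by
  unfold rt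
  rw [Complex.sub_re, Complex.sub_im]
  ring

lemma ori_up_pi (θ : ℝ) (w : ℂ) : up (θ + Real.pi) w = - up θ w := by
  unfold up
  rw [Real.cos_add_pi, Real.sin_add_pi]
  ring

lemma ori_up_half (θ : ℝ) (w : ℂ) : up (θ + Real.pi / 2) w = - rt θ w := by
  unfold up rt
  rw [Real.cos_add_pi_div_two, Real.sin_add_pi_div_two]
  ring

lemma ori_up_three (θ : ℝ) (w : ℂ) : up (θ + 3 * Real.pi / 2) w = rt θ w := by
  have h : θ + 3 * Real.pi / 2 = (θ + Real.pi / 2) + Real.pi := by ring
  rw [h, ori_up_pi, ori_up_half, neg_neg]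

lemma ori_crv {F : ℝ → ℂ} (hF : Crv F) : Crv fun t => F (-t) where
  cont := hF.cont.comp continuous_neg
  per := by
    intro t
    have h := hF.per (-t - 1)
    have h1 : -t - 1 + 1 = -t := by ring
    have h2 : -(t + 1) = -t - 1 := by ring
    rw [h1] at h
    simp only [h2]
    exact h.symm
  inj := by
    intro s t h
    obtain ⟨n, hn⟩ := hF.inj _ _ h
    refine ⟨-n, ?_⟩
    push_cast
    linarith

lemma ori_int {F : ℝ → ℂ} (hF : Crv F) (n : ℕ) : ∀ t, F (t + n) = F t := by
  induction n with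
  | zero => intro t; simp
  | succ k ih =>
    intro t
    have h : t + ((k + 1 : ℕ) : ℝ) = (t + k) + 1 := by push_cast; ring
    rw [h, hF.per, ih]

lemma ori_intz {F : ℝ → ℂ} (hF : Crv F) (n : ℤ) (t : ℝ) : F (t + n) = F t := by
  obtain ⟨k, rfl | rfl⟩ := n.eq_nat_or_neg
  · have := ori_int hF k t
    rw [Int.cast_natCast]
    exact this
  · have h := ori_int hF k (t + ((-(k : ℤ) : ℤ) : ℝ))
    have h1 : t + ((-(k : ℤ) : ℤ) : ℝ) + (k : ℝ) = t := by push_cast; ring
    rw [h1] at h
    exact h.symm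

/-- A representative of a parameter in a given period. -/
lemma ori_rep {F : ℝ → ℂ} (hF : Crv F) (a t : ℝ) :
    ∃ t', a ≤ t' ∧ t' < a + 1 ∧ F t' = F t := by
  refine ⟨t + ((-⌊t - a⌋ : ℤ) : ℝ), ?_, ?_, ori_intz hF _ _⟩
  · push_cast
    linarith [Int.floor_le (t - a)]
  · push_cast
    linarith [Int.lt_floor_add_one (t - a)]

/-- Maximum of a continuous function of the point of the curve. -/
lemma ori_max {F : ℝ → ℂ} (hF : Crv F) (a : ℝ) {g : ℂ → ℝ} (hg : Continuous g) :
    ∃ z, a ≤ z ∧ z ≤ a + 1 ∧ ∀ t, g (F t) ≤ g (F z) := by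
  obtain ⟨z, hz, hz'⟩ := (isCompact_Icc (a := a) (b := a + 1)).exists_isMaxOn
    ⟨a, by constructor <;> linarith⟩ (hg.comp hF.cont).continuousOn
  refine ⟨z, hz.1, hz.2, fun t => ?_⟩
  obtain ⟨t', h1, h2, h3⟩ := ori_rep hF a t
  have := isMaxOn_iff.1 hz' t' ⟨h1, h2.le⟩
  rw [← h3]
  exact this

lemma ori_cont_rt (θ : ℝ) (w : ℂ) : Continuous fun z : ℂ => rt θ (z - w) := by
  unfold rt
  fun_prop

lemma ori_cont_up (θ : ℝ) (w : ℂ) : Continuous fun z : ℂ => up θ (z - w) := by
  unfold up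
  fun_prop

theorem stmt_ORI (hH : Stmt_HOPF) : Stmt_ORI := by
  intro F s0 t0 D ϑ hF hD hre him hle
  have hpi := Real.pi_pos
  have hsc := Real.sin_sq_add_cos_sq ϑ
  have hupQ : up ϑ (F t0 - F s0) = D := by
    unfold up
    rw [hre, him]
    calc D * Real.cos ϑ * Real.cos ϑ - -(D * Real.sin ϑ) * Real.sin ϑ
        = D * (Real.sin ϑ ^ 2 + Real.cos ϑ ^ 2) := by ring
      _ = D := by rw [hsc, mul_one]
  have hrtQ : rt ϑ (F t0 - F s0) = 0 := by
    unfold rt
    rw [hre, him]
    ring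
  -- the parameter of Q in the period
  obtain ⟨t1, ht1, ht1', hQ⟩ := ori_rep hF s0 t0
  have hne : t1 ≠ s0 := by
    rintro rfl
    rw [← hQ, sub_self] at hupQ
    unfold up at hupQ
    simp only [Complex.zero_im, Complex.zero_re, zero_mul, sub_self] at hupQ
    linarith
  have ht1s : s0 < t1 := lt_of_le_of_ne ht1 (Ne.symm hne)
  rw [← hQ] at hupQ hrtQ
  -- the two support points
  have hS1 : ∀ t, 0 ≤ up ϑ (F t - F s0) := by
    intro t
    have h1 := ori_abs ϑ (F t - F t1)
    have h2 := hle t1 t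
    have h3 : up ϑ (F t - F t1) = up ϑ (F t - F s0) - D := by
      rw [ori_up_sub, ori_up_sub]
      rw [ori_up_sub] at hupQ
      linarith
    have h4 := abs_le.1 (h1.trans h2)
    linarith [h4.1]
  have hS3 : ∀ t, 0 ≤ up (ϑ + Real.pi) (F t - F t1) := by
    intro t
    have h1 := ori_abs ϑ (F t - F s0)
    have h2 := hle s0 t
    have h3 : up ϑ (F t - F t1) = up ϑ (F t - F s0) - D := by
      rw [ori_up_sub, ori_up_sub]
      rw [ori_up_sub] at hupQ
      linarith
    have h4 := abs_le.1 (h1.trans h2)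
    rw [ori_up_pi]
    linarith [h4.2]
  have hper : F (s0 + 1) = F s0 := hF.per s0
  have hrtP : rt ϑ (F s0 - F s0) = 0 := by
    rw [sub_self]
    unfold rt
    simp
  by_cases hpos : ∃ t, 0 < rt ϑ (F t - F s0)
  · obtain ⟨t, ht⟩ := hpos
    obtain ⟨z, hz1, hz2, hz⟩ := ori_max hF s0 (ori_cont_rt ϑ (F s0))
    have hz0 : 0 < rt ϑ (F z - F s0) := lt_of_lt_of_le ht (hz t)
    have hzs : z ≠ s0 := by
      rintro rfl
      rw [hrtP] at hz0
      exact lt_irrefl _ hz0
    have hze : z ≠ s0 + 1 := by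
      rintro rfl
      rw [hper, hrtP] at hz0
      exact lt_irrefl _ hz0
    have hzt : z ≠ t1 := by
      rintro rfl
      rw [hrtQ] at hz0
      exact lt_irrefl _ hz0
    have hS2 : ∀ t, 0 ≤ up (ϑ + Real.pi / 2) (F t - F z) := by
      intro t
      have h1 := hz t
      rw [ori_up_half]
      rw [ori_rt_sub] at h1 ⊢
      rw [ori_rt_sub] at h1
      linarith
    have hz1' : s0 < z := lt_of_le_of_ne hz1 (Ne.symm hzs)
    have hz2' : z < s0 + 1 := lt_of_le_of_ne hz2 hze
    rcases lt_or_gt_of_ne hzt with hlt | hgt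
    · obtain ⟨θ, hθ⟩ := hH F s0 z t1 ϑ (ϑ + Real.pi / 2) (ϑ + Real.pi) hF hz1' hlt ht1'
        (by linarith) (by linarith) (by linarith) hS1 hS2 hS3
      exact ⟨F, θ, Or.inl rfl, hF, hθ⟩
    · obtain ⟨θ, hθ⟩ := hH (fun t => F (-t)) (-s0 - 1) (-z) (-t1) ϑ (ϑ + Real.pi / 2)
        (ϑ + Real.pi) (ori_crv hF) (by linarith) (by linarith) (by linarith)
        (by linarith) (by linarith) (by linarith)
        (fun t => by
          have h1 : -(-s0 - 1) = s0 + 1 := by ring
          simp only [h1, hper]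
          exact hS1 _)
        (fun t => by
          simp only [neg_neg]
          exact hS2 _)
        (fun t => by
          simp only [neg_neg]
          exact hS3 _)
      exact ⟨_, θ, Or.inr rfl, ori_crv hF, hθ⟩
  · by_cases hneg : ∃ t, rt ϑ (F t - F s0) < 0
    · obtain ⟨t, ht⟩ := hneg
      obtain ⟨z, hz1, hz2, hz3⟩ := ori_max hF s0 (ori_cont_rt ϑ (F s0)).neg
      have hz : ∀ t, -rt ϑ (F t - F s0) ≤ -rt ϑ (F z - F s0) := hz3
      have hz0 : rt ϑ (F z - F s0) < 0 := by
        have := hz t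
        linarith
      have hzs : z ≠ s0 := by
        rintro rfl
        rw [hrtP] at hz0
        exact lt_irrefl _ hz0
      have hze : z ≠ s0 + 1 := by
        rintro rfl
        rw [hper, hrtP] at hz0
        exact lt_irrefl _ hz0
      have hzt : z ≠ t1 := by
        rintro rfl
        rw [hrtQ] at hz0
        exact lt_irrefl _ hz0
      have hS2 : ∀ t, 0 ≤ up (ϑ + 3 * Real.pi / 2) (F t - F z) := by
        intro t
        have h1 := hz t
        rw [ori_up_three]
        rw [ori_rt_sub] at h1 ⊢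
        rw [ori_rt_sub] at h1
        linarith
      have hz1' : s0 < z := lt_of_le_of_ne hz1 (Ne.symm hzs)
      have hz2' : z < s0 + 1 := lt_of_le_of_ne hz2 hze
      rcases lt_or_gt_of_ne hzt with hlt | hgt
      · obtain ⟨θ, hθ⟩ := hH (fun t => F (-t)) (-s0 - 1) (-t1) (-z) ϑ (ϑ + Real.pi)
          (ϑ + 3 * Real.pi / 2) (ori_crv hF) (by linarith) (by linarith) (by linarith)
          (by linarith) (by linarith) (by linarith)
          (fun t => by
            have h1 : -(-s0 - 1) = s0 + 1 := by ring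
            simp only [h1, hper]
            exact hS1 _)
          (fun t => by
            simp only [neg_neg]
            exact hS3 _)
          (fun t => by
            simp only [neg_neg]
            exact hS2 _)
        exact ⟨_, θ, Or.inr rfl, ori_crv hF, hθ⟩
      · obtain ⟨θ, hθ⟩ := hH F s0 t1 z ϑ (ϑ + Real.pi) (ϑ + 3 * Real.pi / 2) hF ht1s hgt hz2'
          (by linarith) (by linarith) (by linarith) hS1 hS3 hS2
        exact ⟨F, θ, Or.inl rfl, hF, hθ⟩
    · -- the curve would be contained in a line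
      exfalso
      have h0 : ∀ t, rt ϑ (F t - F s0) = 0 := fun t =>
        le_antisymm (not_lt.1 fun h => hpos ⟨t, h⟩) (not_lt.1 fun h => hneg ⟨t, h⟩)
      have hc : Continuous fun t => up ϑ (F t - F s0) :=
        (ori_cont_up ϑ (F s0)).comp hF.cont
      have hb0 : up ϑ (F s0 - F s0) = 0 := by
        rw [sub_self]
        unfold up
        simp
      obtain ⟨u, hu, hu'⟩ := intermediate_value_Ioo ht1s.le hc.continuousOn
        (show D / 2 ∈ Ioo (up ϑ (F s0 - F s0)) (up ϑ (F t1 - F s0)) by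
          rw [hb0, hupQ]
          constructor <;> linarith)
      obtain ⟨v, hv, hv'⟩ := intermediate_value_Ioo' ht1'.le hc.continuousOn
        (show D / 2 ∈ Ioo (up ϑ (F (s0 + 1) - F s0)) (up ϑ (F t1 - F s0)) by
          rw [hper, hb0, hupQ]
          constructor <;> linarith)
      simp only at hu' hv'
      have huv : F u = F v := by
        have h1 : F u - F s0 = F v - F s0 := by
          apply Complex.ext
          · rw [ori_re ϑ (F u - F s0), ori_re ϑ (F v - F s0), h0, h0, hu', hv']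
          · rw [ori_im ϑ (F u - F s0), ori_im ϑ (F v - F s0), h0, h0, hu', hv']
        exact sub_left_injective h1
      obtain ⟨n, hn⟩ := hF.inj _ _ huv
      have h3 : (n : ℝ) < 0 := by linarith [hu.2, hv.1]
      have h4 : (-1 : ℝ) < n := by linarith [hu.1, hv.2]
      have h5 : n < (0 : ℤ) := by exact_mod_cast h3
      have h6 : (-1 : ℤ) < n := by exact_mod_cast h4
      omega

end Pool.MP_7ec17a_gt.D
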