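import Pool.Agent.Work.MP_7ec17a_gt_D.HOPF

/-!
# MP_7ec17a_gt, Theorem D: block SUPP (helper42)

Every support point has, after a shift of the parameter by an integer, the given lifted direction.
-/

set_option autoImplicit false

open Set

namespace Pool.MP_7ec17a_gt.D

open Pool.MP_7ec17a_gt.T Pool.MP_7ec17a_gt.M

lemma supp_per {f : ℝ → ℂ} (hf : Crv f) (n : ℤ) : ∀ t : ℝ, f (t + n) = f t := by
  induction n using Int.induction_on with
  | zero => intro t; rw [Int.cast_zero, add_zero]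
  | succ i ih =>
    intro t
    rw [← hf.per t, ← ih (t + 1)]
    congr 1
    push_cast
    ring
  | pred i ih =>
    intro t
    rw [← ih t, ← hf.per (t + ((-(i : ℤ) - 1 : ℤ) : ℝ))]
    congr 1
    push_cast
    ring

lemma supp_turn {f : ℝ → ℂ} {θ : ℝ × ℝ → ℝ} (hL : Lift f θ) {s s' : ℝ} (h1 : s < s')
    (h2 : s' < s + 1) : θ (s + 1, s' + 1) = θ (s, s') + 2 * Real.pi := by
  rw [hL.turn s' (s + 1) h2 (by linarith), hL.turn s s' h1 h2]
  ring

lemma supp_shift {f : ℝ → ℂ} {θ : ℝ × ℝ → ℝ} (hL : Lift f θ) (n : ℤ) : ∀ s s' : ℝ, s < s' →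
    s' < s + 1 → θ (s + n, s' + n) = θ (s, s') + n * (2 * Real.pi) := by
  induction n using Int.induction_on with
  | zero => intro s s' _ _; simp
  | succ i ih =>
    intro s s' h1 h2
    have h := supp_turn hL (s := s + ((i : ℤ) : ℝ)) (s' := s' + ((i : ℤ) : ℝ)) (by linarith)
      (by linarith)
    rw [ih s s' h1 h2] at h
    have e1 : s + (((i : ℤ) + 1 : ℤ) : ℝ) = s + ((i : ℤ) : ℝ) + 1 := by push_cast; ring
    have e2 : s' + (((i : ℤ) + 1 : ℤ) : ℝ) = s' + ((i : ℤ) : ℝ) + 1 := by push_cast; ring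
    rw [e1, e2, h]
    push_cast
    ring
  | pred i ih =>
    intro s s' h1 h2
    have h := supp_turn hL (s := s + ((-(i : ℤ) - 1 : ℤ) : ℝ))
      (s' := s' + ((-(i : ℤ) - 1 : ℤ) : ℝ)) (by linarith) (by linarith)
    have e1 : s + ((-(i : ℤ) - 1 : ℤ) : ℝ) + 1 = s + ((-(i : ℤ) : ℤ) : ℝ) := by push_cast; ring
    have e2 : s' + ((-(i : ℤ) - 1 : ℤ) : ℝ) + 1 = s' + ((-(i : ℤ) : ℤ) : ℝ) := by push_cast; ring
    rw [e1, e2, ih s s' h1 h2] at h
    have h3 : θ (s + ((-(i : ℤ) - 1 : ℤ) : ℝ), s' + ((-(i : ℤ) - 1 : ℤ) : ℝ)) =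
        θ (s, s') + ((-(i : ℤ) : ℤ) : ℝ) * (2 * Real.pi) - 2 * Real.pi := by linarith
    rw [h3]
    push_cast
    ring

/-- The column of a support point from its row. -/
lemma supp_col {f : ℝ → ℂ} {θ : ℝ × ℝ → ℝ} (hL : Lift f θ) {s ψ : ℝ}
    (hrow : ∀ s' : ℝ, s < s' → s' < s + 1 → ψ ≤ θ (s, s') ∧ θ (s, s') ≤ ψ + Real.pi) :
    ∀ s' : ℝ, s - 1 < s' → s' < s → ψ - Real.pi ≤ θ (s', s) ∧ θ (s', s) ≤ ψ := by
  intro s' h1 h2
  have h3 := hL.turn s' s h2 (by linarith)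
  have h4 := hrow (s' + 1) (by linarith) (by linarith)
  rw [h3] at h4
  constructor
  · linarith [h4.1]
  · linarith [h4.2]

theorem stmt_SUPP : Stmt_SUPP := by
  intro f θ s φ hf hL hs
  obtain ⟨k, hk⟩ := hopf_row hf hL.cont hL.pol hs
  have hrow : ∀ s' : ℝ, s + ((-k : ℤ) : ℝ) < s' → s' < s + ((-k : ℤ) : ℝ) + 1 →
      φ ≤ θ (s + ((-k : ℤ) : ℝ), s') ∧ θ (s + ((-k : ℤ) : ℝ), s') ≤ φ + Real.pi := by
    intro s' h1 h2
    have h3 := supp_shift hL (-k) s (s' - ((-k : ℤ) : ℝ)) (by linarith) (by linarith)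
    rw [sub_add_cancel] at h3
    have h4 := hk (s' - ((-k : ℤ) : ℝ)) (by linarith) (by linarith)
    rw [h3]
    push_cast at h4 ⊢
    constructor
    · linarith [h4.1]
    · linarith [h4.2]
  exact ⟨-k, fun t => by rw [supp_per hf]; exact hs t, hrow, supp_col hL hrow⟩

end Pool.MP_7ec17a_gt.D
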