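import Pool.Agent.Work.MP_7ec17a_gt_D.Interface

/-! # MP_7ec17a_gt, Theorem D, block FRAME (helper50): a good frame -/

set_option autoImplicit false

open Set

namespace Pool.MP_7ec17a_gt.D

open Pool.MP_7ec17a_gt.T Pool.MP_7ec17a_gt.M

/-- one of the four rotations by right angles puts a vector into the second quadrant -/
lemma frame_rot (w : ℂ) (hre : w.re ≠ 0) (him : w.im ≠ 0) : ∃ v : ℂ, ‖v‖ = 1 ∧ (v * w).re < 0 ∧
    0 < (v * w).im ∧ ∀ (z : ℂ) (D : ℝ), |z.re| < D → |z.im| < D →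
      |(v * z).re| < D ∧ |(v * z).im| < D := by
  rcases lt_or_gt_of_ne hre with h1 | h1 <;> rcases lt_or_gt_of_ne him with h2 | h2
  · refine ⟨-Complex.I, by simp, by simpa using h2, by simpa using h1, fun z D h3 h4 => ?_⟩
    simp only [neg_mul, Complex.neg_re, Complex.mul_re, Complex.I_re, Complex.I_im, zero_mul,
      one_mul, zero_sub, neg_neg, Complex.neg_im, Complex.mul_im, zero_add, abs_neg]
    exact ⟨h4, h3⟩
  · exact ⟨1, by simp, by simpa using h1, by simpa using h2, fun z D h3 h4 => by simpa using ⟨h3, h4⟩⟩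
  · exact ⟨-1, by simp, by simpa using h1, by simpa using h2, fun z D h3 h4 => by
      simpa using ⟨h3, h4⟩⟩
  · refine ⟨Complex.I, by simp, by simpa using h2, by simpa using h1, fun z D h3 h4 => ?_⟩
    simp only [Complex.mul_re, Complex.I_re, Complex.I_im, zero_mul, one_mul, zero_sub,
      Complex.mul_im, zero_add, abs_neg]
    exact ⟨h4, h3⟩

lemma frame_crv {γ : Circle → ℂ} (hc : Continuous γ) (hi : Function.Injective γ) {u : ℂ}
    (hu : ‖u‖ = 1) : Crv (fun t : ℝ => u * γ (Circle.exp (2 * Real.pi * t))) where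
  cont := by
    have h1 : Continuous fun t : ℝ => Circle.exp (2 * Real.pi * t) :=
      Circle.exp.continuous.comp (by fun_prop)
    exact continuous_const.mul (hc.comp h1)
  per t := by
    have h1 : Circle.exp (2 * Real.pi * (t + 1)) = Circle.exp (2 * Real.pi * t) := by
      rw [mul_add, mul_one]
      exact Circle.periodic_exp _
    simp only [h1]
  inj s t hst := by
    have hu0 : u ≠ 0 := by
      rintro rfl
      simp at hu
    have h1 := hi (mul_left_cancel₀ hu0 hst)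
    obtain ⟨m, hm⟩ := Circle.exp_eq_exp.1 h1
    refine ⟨m, ?_⟩
    have h2 : (2 * Real.pi) ≠ 0 := by positivity
    apply mul_left_cancel₀ h2
    rw [hm]
    ring

theorem stmt_FRAME : Stmt_FRAME := by
  intro γ u P Q hc hi hu hP hQ hbox
  -- the diameter
  have hcont : Continuous fun p : Circle × Circle => ‖γ p.2 - γ p.1‖ :=
    ((hc.comp continuous_snd).sub (hc.comp continuous_fst)).norm
  obtain ⟨⟨a, b⟩, -, hmax⟩ := isCompact_univ.exists_isMaxOn (s := (univ : Set (Circle × Circle)))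
    univ_nonempty hcont.continuousOn
  have hmax' : ∀ x y : Circle, ‖γ y - γ x‖ ≤ ‖γ b - γ a‖ := fun x y => hmax (mem_univ (x, y))
  set D := ‖γ b - γ a‖ with hD
  obtain ⟨p, rfl⟩ := hP
  obtain ⟨q, rfl⟩ := hQ
  have hPQ : ‖γ p - γ q‖ ≤ D := hmax' q p
  have hD0 : 0 < D := by
    have h1 := (hbox _ ⟨p, rfl⟩ _ ⟨q, rfl⟩).1
    exact (abs_nonneg _).trans_lt h1 |>.trans_le hPQ
  have hbox' : ∀ x y : Circle, |(u * (γ x - γ y)).re| < D ∧ |(u * (γ x - γ y)).im| < D :=
    fun x y => ⟨(hbox _ ⟨x, rfl⟩ _ ⟨y, rfl⟩).1.trans_le hPQ,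
      (hbox _ ⟨x, rfl⟩ _ ⟨y, rfl⟩).2.trans_le hPQ⟩
  -- both coordinates of the diameter are not zero
  have hsq : ∀ v : ℂ, ‖v‖ = 1 → (v * (γ b - γ a)).re ^ 2 + (v * (γ b - γ a)).im ^ 2 = D ^ 2 := by
    intro v hv
    have h1 : ‖v * (γ b - γ a)‖ ^ 2 = D ^ 2 := by rw [norm_mul, hv, one_mul]
    rw [← h1, Complex.sq_norm, Complex.normSq_apply]
    ring
  have hlt : ∀ x : ℝ, |x| < D → x ^ 2 < D ^ 2 := fun x hx => by
    rw [← sq_abs]
    exact pow_lt_pow_left₀ hx (abs_nonneg _) (by norm_num)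
  have hre : (u * (γ b - γ a)).re ≠ 0 := by
    intro h0
    have h1 := hsq u hu
    rw [h0] at h1
    have h2 := hlt _ (hbox' b a).2
    linarith
  have him : (u * (γ b - γ a)).im ≠ 0 := by
    intro h0
    have h1 := hsq u hu
    rw [h0] at h1
    have h2 := hlt _ (hbox' b a).1
    linarith
  obtain ⟨v, hv, hv1, hv2, hv3⟩ := frame_rot _ hre him
  have hu' : ‖v * u‖ = 1 := by rw [norm_mul, hv, hu, one_mul]
  have hbox2 : ∀ x y : Circle, |(v * u * (γ x - γ y)).re| < D ∧ |(v * u * (γ x - γ y)).im| < D := by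
    intro x y
    rw [mul_assoc]
    exact hv3 _ D (hbox' x y).1 (hbox' x y).2
  rw [← mul_assoc] at hv1 hv2
  have hsq' := hsq (v * u) hu'
  set X := (v * u * (γ b - γ a)).re with hX
  set Y := (v * u * (γ b - γ a)).im with hY
  have hXD : -X < D := by
    have := (hbox2 b a).1
    rw [← hX] at this
    exact (neg_le_abs X).trans_lt this
  have hz1 : 0 < -X / D := div_pos (by linarith) hD0
  have hz2 : -X / D < 1 := (div_lt_one hD0).2 hXD
  have hsin : D * Real.sin (Real.arcsin (-X / D)) = -X := by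
    rw [Real.sin_arcsin (by linarith) hz2.le, mul_div_cancel₀ _ hD0.ne']
  have hcos : D * Real.cos (Real.arcsin (-X / D)) = Y := by
    rw [Real.cos_arcsin]
    have h1 : 1 - (-X / D) ^ 2 = (Y / D) ^ 2 := by
      field_simp
      linarith
    rw [h1, Real.sqrt_sq (div_nonneg hv2.le hD0.le), mul_div_cancel₀ _ hD0.ne']
  have hexp : ∀ c : Circle, Circle.exp (2 * Real.pi * (Complex.arg (c : ℂ) / (2 * Real.pi))) = c := by
    intro c
    have h2 : (2 * Real.pi) ≠ 0 := by positivity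
    rw [mul_div_cancel₀ _ h2, Circle.exp_arg]
  have hdiff : ∀ x y : Circle, v * u * γ x - v * u * γ y = v * u * (γ x - γ y) :=
    fun x y => (mul_sub _ _ _).symm
  refine ⟨v * u, fun t : ℝ => v * u * γ (Circle.exp (2 * Real.pi * t)),
    Complex.arg (a : ℂ) / (2 * Real.pi), Complex.arg (b : ℂ) / (2 * Real.pi), D,
    Real.arcsin (-X / D), hu', fun t => ⟨_, ⟨_, rfl⟩, rfl⟩, frame_crv hc hi hu', hD0,
    Real.arcsin_pos.2 hz1, ?_, ?_, ?_, ?_, ?_, ?_⟩
  · exact (Real.arcsin_lt_pi_div_two).2 hz2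
  · simp only [hexp, hdiff]
    rw [hsin, neg_neg]
  · simp only [hexp, hdiff]
    rw [hcos]
  · intro s t
    simp only [hdiff]
    rw [norm_mul, hu', one_mul]
    exact hmax' _ _
  · intro s t
    simp only [hdiff]
    exact (hbox2 _ _).1
  · intro s t
    simp only [hdiff]
    exact (hbox2 _ _).2

end Pool.MP_7ec17a_gt.D
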