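import Pool.Agent.Work.MP_7ec17a_gt_D.MAIN

/-!
# The theorem for Jordan curves
-/

set_option autoImplicit false

open Set

namespace Pool.MP_7ec17a_gt.D

open Pool.MP_7ec17a_gt.T Pool.MP_7ec17a_gt.M

/-- All large aspect ratios. -/
theorem large (hSUPP : Stmt_SUPP) (hMONO : Stmt_MONO) (hT1 : Stmt_TRAP1) (hT2 : Stmt_TRAP2)
    (hORI : Stmt_ORI) (hFRAME : Stmt_FRAME) (γ : Circle → ℂ) (hγ : Continuous γ)
    (hinj : Function.Injective γ) (u P Q : ℂ) (hu : ‖u‖ = 1) (hP : P ∈ range γ) (hQ : Q ∈ range γ)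
    (hbox : ∀ z ∈ range γ, ∀ w ∈ range γ,
      |(u * (z - w)).re| < ‖P - Q‖ ∧ |(u * (z - w)).im| < ‖P - Q‖) :
    ∃ R : ℝ, 0 < R ∧ ∀ r : ℝ, R ≤ r → ∃ a v : ℂ, v ≠ 0 ∧ a ∈ range γ ∧ a + v ∈ range γ ∧
      a + v + Complex.I * (r : ℂ) * v ∈ range γ ∧ a + Complex.I * (r : ℂ) * v ∈ range γ := by
  have hpi := Real.pi_pos
  obtain ⟨u', F, s0, t0, D, ϑ, hu', hrange, hF, hD, hϑ0, hϑ1, hre, him, hdiam, hw1, hw2⟩ :=
    hFRAME γ u P Q hγ hinj hu hP hQ hbox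
  have hu0 : u' ≠ 0 := fun h => by
    rw [h, norm_zero] at hu'
    exact zero_ne_one hu'
  obtain ⟨f, θ, hfF, hf, hθ⟩ := hORI F s0 t0 D ϑ hF hD hre him hdiam
  -- the parameters of the diametral pair for `f`
  obtain ⟨s1, t1, hre', him', hdiam', hw1', hw2', hrange'⟩ : ∃ s1 t1 : ℝ,
      (f t1 - f s1).re = -(D * Real.sin ϑ) ∧ (f t1 - f s1).im = D * Real.cos ϑ ∧
      (∀ s t, ‖f t - f s‖ ≤ D) ∧ (∀ s t, |(f t - f s).re| < D) ∧
      (∀ s t, |(f t - f s).im| < D) ∧ ∀ t, ∃ z ∈ range γ, f t = u' * z := by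
    rcases hfF with rfl | rfl
    · exact ⟨s0, t0, hre, him, hdiam, hw1, hw2, hrange⟩
    · refine ⟨-s0, -t0, ?_, ?_, fun s t => hdiam _ _, fun s t => hw1 _ _, fun s t => hw2 _ _,
        fun t => hrange _⟩
      · simp only [neg_neg]; exact hre
      · simp only [neg_neg]; exact him
  obtain ⟨θ1, a1, a2, sp, tm, b1, b2, b3⟩ := hT1 f s1 t1 D ϑ hf hD hϑ0 hϑ1 hre' him' hdiam' hw1'
  obtain ⟨θ2, c1, c2, sm, tp, d1, d2, d3⟩ := hT2 f s1 t1 D ϑ hf hD hϑ0 hϑ1 hre' him' hdiam' hw2'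
  obtain ⟨R, hR, hr⟩ := assem hSUPP hMONO hf hθ (θ1 := θ1) (θ2 := θ2) (by linarith) (by linarith)
    a2 (by linarith) b1 b2 b3 d1 d2 d3
  refine ⟨R, hR, fun r hrR => ?_⟩
  obtain ⟨s, s', t, t', v, hv, e1, e2, e3⟩ := hr r hrR
  obtain ⟨z1, hz1, f1⟩ := hrange' s
  obtain ⟨z2, hz2, f2⟩ := hrange' s'
  obtain ⟨z3, hz3, f3⟩ := hrange' t'
  obtain ⟨z4, hz4, f4⟩ := hrange' t
  have j : ∀ w : ℂ, u' * (w / u') = w := fun w => mul_div_cancel₀ w hu0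
  refine ⟨z1, v / u', div_ne_zero hv hu0, hz1, ?_, ?_, ?_⟩
  · have : z1 + v / u' = z2 := mul_left_cancel₀ hu0 (by rw [mul_add, j, ← f1, ← f2, e1])
    rw [this]
    exact hz2
  · have : z1 + v / u' + Complex.I * (r : ℂ) * (v / u') = z4 := mul_left_cancel₀ hu0 (by
      have e : u' * (z1 + v / u' + Complex.I * (r : ℂ) * (v / u')) = u' * z1 + u' * (v / u') +
        Complex.I * (r : ℂ) * (u' * (v / u')) := by ring
      rw [e, j, ← f1, ← f4, e3])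
    rw [this]
    exact hz4
  · have : z1 + Complex.I * (r : ℂ) * (v / u') = z3 := mul_left_cancel₀ hu0 (by
      have e : u' * (z1 + Complex.I * (r : ℂ) * (v / u')) = u' * z1 +
        Complex.I * (r : ℂ) * (u' * (v / u')) := by ring
      rw [e, j, ← f1, ← f3, e2])
    rw [this]
    exact hz3

/-- Large aspect ratios also give small ones. -/
theorem both {X : Set ℂ} (h : ∃ R : ℝ, 0 < R ∧ ∀ r : ℝ, R ≤ r → ∃ a v : ℂ, v ≠ 0 ∧ a ∈ X ∧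
      a + v ∈ X ∧ a + v + Complex.I * (r : ℂ) * v ∈ X ∧ a + Complex.I * (r : ℂ) * v ∈ X) :
    ∃ R : ℝ, 0 < R ∧ ∀ r : ℝ, 0 < r → (R ≤ r ∨ r ≤ 1 / R) → ∃ a v : ℂ, v ≠ 0 ∧ a ∈ X ∧
      a + v ∈ X ∧ a + v + Complex.I * (r : ℂ) * v ∈ X ∧ a + Complex.I * (r : ℂ) * v ∈ X := by
  obtain ⟨R, hR, hr⟩ := h
  refine ⟨R, hR, fun r hr0 hrR => ?_⟩
  rcases hrR with h | h
  · exact hr r h
  · have h1 : R ≤ 1 / r := by
      rw [le_div_iff₀ hr0]
      rw [le_div_iff₀ hR] at h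
      linarith
    have hrC : (r : ℂ) ≠ 0 := Complex.ofReal_ne_zero.2 hr0.ne'
    obtain ⟨a, v, hv, m1, m2, m3, m4⟩ := hr (1 / r) h1
    have e : Complex.I * (r : ℂ) * (Complex.I * ((1 / r : ℝ) : ℂ) * v) = -v := by
      have e2 : Complex.I * (r : ℂ) * (Complex.I * ((1 / r : ℝ) : ℂ) * v) =
        (Complex.I * Complex.I) * ((r : ℂ) * ((1 / r : ℝ) : ℂ)) * v := by ring
      rw [e2, Complex.I_mul_I]
      push_cast
      rw [mul_one_div_cancel hrC]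
      ring
    refine ⟨a + v, Complex.I * ((1 / r : ℝ) : ℂ) * v, ?_, m2, m3, ?_, ?_⟩
    · refine mul_ne_zero (mul_ne_zero Complex.I_ne_zero ?_) hv
      exact Complex.ofReal_ne_zero.2 (by positivity)
    · rw [e]
      have e3 : a + v + Complex.I * ((1 / r : ℝ) : ℂ) * v + -v =
        a + Complex.I * ((1 / r : ℝ) : ℂ) * v := by ring
      rw [e3]
      exact m4
    · rw [e]
      have e3 : a + v + -v = a := by ring
      rw [e3]
      exact m1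

end Pool.MP_7ec17a_gt.D
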