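import Pool.Agent.Work.MP_7ec17a_gt_M.Miranda

/-!
# MP_7ec17a_gt, Theorem D: interface

`f : ℝ → ℂ` is a closed curve of period `1` which is injective modulo the period.
`Pool.MP_7ec17a_gt.M.Pol w φ` says that `φ` is an argument of `w`:
`w.re = ‖w‖ * cos φ` and `w.im = ‖w‖ * sin φ`.

For an angle `θ` put `d θ = i e^{iθ}` and `ρ θ = e^{iθ}`; `up θ z` and `rt θ z` are the components of
`z` in these two directions.  If `Pol w φ` then `up θ w = ‖w‖ sin (φ - θ)` and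
`rt θ w = ‖w‖ cos (φ - θ)` (lemmas `up_pol`, `rt_pol` below).

Useful tools (all proved): in `Pool.MP_7ec17a_gt.M`: `Pol`, `Pol.shift`, `Pol.sin_pos`,
`Pol.diff`, `int_const`, `arg_unique`, `exists_arg'`, `stay_np`, `stay_nn`, `stay_pos`,
`stay_shift`, `exists_shift`, the clamp `cl` with `cl_mem`, `cl_of_mem`, `cl_neg`, `cl_big`,
`continuous_cl`; in `Pool.MP_7ec17a_gt.T`: `exists_arg` (continuous argument on a convex open set),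
`stay`.
-/

set_option autoImplicit false

open Set

namespace Pool.MP_7ec17a_gt.D

open Pool.MP_7ec17a_gt.T Pool.MP_7ec17a_gt.M

/-- The component of `z` in the direction `i e^{iθ}`. -/
noncomputable def up (θ : ℝ) (z : ℂ) : ℝ := z.im * Real.cos θ - z.re * Real.sin θ

/-- The component of `z` in the direction `e^{iθ}`. -/
noncomputable def rt (θ : ℝ) (z : ℂ) : ℝ := z.re * Real.cos θ + z.im * Real.sin θ

lemma up_pol {w : ℂ} {φ : ℝ} (h : Pol w φ) (θ : ℝ) : up θ w = ‖w‖ * Real.sin (φ - θ) := by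
  unfold up
  rw [Real.sin_sub]
  nth_rewrite 1 [h.2]
  nth_rewrite 1 [h.1]
  ring

lemma rt_pol {w : ℂ} {φ : ℝ} (h : Pol w φ) (θ : ℝ) : rt θ w = ‖w‖ * Real.cos (φ - θ) := by
  unfold rt
  rw [Real.cos_sub]
  nth_rewrite 1 [h.1]
  nth_rewrite 1 [h.2]
  ring

/-- A Jordan curve, parametrised with period `1`. -/
structure Crv (f : ℝ → ℂ) : Prop where
  cont : Continuous f
  per : ∀ t, f (t + 1) = f t
  inj : ∀ s t, f s = f t → ∃ n : ℤ, s = t + n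

/-- The pairs `s < s' < s + 1`. -/
def Strip : Set (ℝ × ℝ) := {z | z.1 < z.2 ∧ z.2 < z.1 + 1}

/-- A continuous argument of the chords, normalised counterclockwise. -/
structure Lift (f : ℝ → ℂ) (θ : ℝ × ℝ → ℝ) : Prop where
  cont : ContinuousOn θ Strip
  pol : ∀ z ∈ Strip, Pol (f z.2 - f z.1) (θ z)
  turn : ∀ s s' : ℝ, s < s' → s' < s + 1 → θ (s', s + 1) = θ (s, s') + Real.pi

/-- The curve lies above the line through `f s` with inner normal `d ψ`, and `ψ` is the lifted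
direction at the parameter `s`. -/
structure Sup (f : ℝ → ℂ) (θ : ℝ × ℝ → ℝ) (s ψ : ℝ) : Prop where
  above : ∀ t, 0 ≤ up ψ (f t - f s)
  row : ∀ s' : ℝ, s < s' → s' < s + 1 → ψ ≤ θ (s, s') ∧ θ (s, s') ≤ ψ + Real.pi
  col : ∀ s' : ℝ, s - 1 < s' → s' < s → ψ - Real.pi ≤ θ (s', s) ∧ θ (s', s) ≤ ψ

/-- **HOPF.** Three support points in counterclockwise order: there is a normalised lift.
Proof: `exists_arg` on the convex open set `Strip` (a chord is never `0`) gives `θ` continuous with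
`Pol`.  As `f (s+1) - f s' = -(f s' - f s)`, the function `θ (s', s+1) - θ (s, s') - π` has values in
`2 π ℤ`, is continuous on `Strip`, hence is a constant `2 π m` (`int_const`).  For a support point
`(s, φ)` (i.e. `0 ≤ up φ (f t - f s)` for all `t`) the row `{(s, s') | s < s' < s+1}` has
`0 ≤ sin (θ - φ)`, so (`exists_shift`, `stay_nn`) there is an integer `k` with
`θ (s, s') ∈ [φ + 2πk, φ + 2πk + π]` on the whole row, and then the column `θ (s', s)`,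
`s - 1 < s' < s`, is in `[φ + 2π(k-m) - π, φ + 2π(k-m)]`.  At the crossing `(s1, s2)` of the row of
`s1` and the column of `s2`: `k2 = k1 + m` (because `0 < φ2 - φ1 < 2π`); at `(s2, s3)`:
`k3 = k2 + m`; at `(s3, s1 + 1)` (row of `s1 + 1`, direction `φ1 + 2π`:
`θ (s1+1, s'+1) = θ (s1, s') + 2(2m+1)π`, so its integer is `k1 + 2m`): `k1 + 2m = k3 + m`.  Hence
`m = 0`. -/
def Stmt_HOPF : Prop := ∀ (f : ℝ → ℂ) (s1 s2 s3 φ1 φ2 φ3 : ℝ), Crv f → s1 < s2 → s2 < s3 →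
  s3 < s1 + 1 → φ1 < φ2 → φ2 < φ3 → φ3 < φ1 + 2 * Real.pi →
  (∀ t, 0 ≤ up φ1 (f t - f s1)) → (∀ t, 0 ≤ up φ2 (f t - f s2)) →
  (∀ t, 0 ≤ up φ3 (f t - f s3)) → ∃ θ : ℝ × ℝ → ℝ, Lift f θ

/-- **SUPP.** Every support point has, after a shift of the parameter by an integer, the lifted
direction `φ`.  Proof: as in HOPF the row of `s` is in `[φ + 2πk, φ + 2πk + π]`; `turn` gives
`θ (s', s) = θ (s, s' + 1) - π` (the column) and, used twice, `θ (s+1, s'+1) = θ (s, s') + 2π`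
(induct to shift by `n : ℤ`); take `n = -k`. -/
def Stmt_SUPP : Prop := ∀ (f : ℝ → ℂ) (θ : ℝ × ℝ → ℝ) (s φ : ℝ), Crv f → Lift f θ →
  (∀ t, 0 ≤ up φ (f t - f s)) → ∃ n : ℤ, Sup f θ (s + n) φ

/-- **MONO.** Lifted directions are monotone.  Proof: suppose `s2 < s1`.  By the shift
`θ (s+1, s'+1) = θ (s, s') + 2π` we have `Sup f θ (s1 - n) (ψ1 - 2πn)` for all naturals `n`.  If
`s1 - n` is in `(s2, s2 + 1)` for some natural `n`, compare the row of `s2` with the column of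
`s1 - n` at `(s2, s1 - n)`: `ψ2 ≤ ψ1 - 2πn`.  Otherwise `s1 - n = s2` with `n ≥ 1`, compare the
two rows of `s2` at `(s2, s2 + 1/2)`: `ψ2 ≤ ψ1 - 2πn + π`.  Both contradict `ψ1 < ψ2`. -/
def Stmt_MONO : Prop := ∀ (f : ℝ → ℂ) (θ : ℝ × ℝ → ℝ) (s1 s2 ψ1 ψ2 : ℝ), Crv f → Lift f θ →
  Sup f θ s1 ψ1 → Sup f θ s2 ψ2 → ψ1 < ψ2 → s1 ≤ s2

/-- **TRAP1.** Maximise `G (s, t, θ) = up θ (f t - f s) + c θ` over `s, t ∈ [0, 1]`, `θ ∈ [ϑ, π/2]`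
for a small `c > 0`.  With `σ = max_{s,t} up (π/2) (f t - f s) < D` (compactness;
`up (π/2) z = - z.re`) take `c (π/2 - ϑ) < D - σ`: then the maximum is not at `θ = π/2` (there
`G ≤ σ + c π/2 < D + c ϑ = G (s0, t0, ϑ)`) and not at `θ = ϑ` (there `G ≤ D + c ϑ`, but
`G (s0, t0, θ) = D cos (θ - ϑ) + c θ > D + c ϑ` for `θ` slightly larger than `ϑ`).  At the maximum
`(s, t, θ1)` the derivative in `θ` vanishes: `-rt θ1 (f t - f s) + c = 0`.  Extend from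
`s, t ∈ [0,1]` to all reals by periodicity (`Int.fract`). -/
def Stmt_TRAP1 : Prop := ∀ (f : ℝ → ℂ) (s0 t0 D ϑ : ℝ), Crv f → 0 < D → 0 < ϑ → ϑ < Real.pi / 2 →
  (f t0 - f s0).re = -(D * Real.sin ϑ) → (f t0 - f s0).im = D * Real.cos ϑ →
  (∀ s t, ‖f t - f s‖ ≤ D) → (∀ s t, |(f t - f s).re| < D) →
  ∃ θ1 : ℝ, ϑ < θ1 ∧ θ1 < Real.pi / 2 ∧ ∃ s t : ℝ, (∀ x, 0 ≤ up θ1 (f x - f s)) ∧
    (∀ x, 0 ≤ up θ1 (f t - f x)) ∧ 0 < rt θ1 (f t - f s)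

/-- **TRAP2.** The same on the other side: maximise `up θ (f t - f s) - c θ` over `θ ∈ [0, ϑ]`.
(It can be deduced from TRAP1 applied to `g x = - (i * conj (f x))`, with `π/2 - ϑ` for `ϑ`: then
`up (π/2 - θ) (g x) = up θ (f x)` and `rt (π/2 - θ) (g x) = - rt θ (f x)`; or copy the proof.) -/
def Stmt_TRAP2 : Prop := ∀ (f : ℝ → ℂ) (s0 t0 D ϑ : ℝ), Crv f → 0 < D → 0 < ϑ → ϑ < Real.pi / 2 →
  (f t0 - f s0).re = -(D * Real.sin ϑ) → (f t0 - f s0).im = D * Real.cos ϑ →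
  (∀ s t, ‖f t - f s‖ ≤ D) → (∀ s t, |(f t - f s).im| < D) →
  ∃ θ2 : ℝ, 0 < θ2 ∧ θ2 < ϑ ∧ ∃ s t : ℝ, (∀ x, 0 ≤ up θ2 (f x - f s)) ∧
    (∀ x, 0 ≤ up θ2 (f t - f x)) ∧ rt θ2 (f t - f s) < 0

/-- **ORI.** Orientation (uses HOPF).  `P = f s0` and `Q = f t0` are at the maximal distance `D`, so
`f s0` is a support point for `ϑ` (if `‖z - Q‖ ≤ D` then `up ϑ (z - P) ≥ 0`) and `f t0` one for
`ϑ + π` (note `up (ϑ + π) z = -up ϑ z`).  Some `f t` is not on the line `P Q`: otherwise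
`t ↦ up ϑ (f t - P)` takes the value `D / 2` on `(s0, t0')` and on `(t0', s0 + 1)`, where
`t0' ∈ (s0, s0+1)` is congruent to `t0`, at two points of the curve which then coincide.  If
`rt ϑ (f t - P) > 0` for some `t`, let `f z` maximise `rt ϑ`: a support point for `ϑ + π/2`
(`up (ϑ + π/2) w = - rt ϑ w`), different from `P` and `Q` (where `rt ϑ (· - P) = 0`); for one of
the two orientations the order is `P, f z, Q`.  Otherwise let `f z` minimise `rt ϑ`, a support point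
for `ϑ + 3π/2`; for one of the orientations the order is `P, Q, f z`. -/
def Stmt_ORI : Prop := ∀ (F : ℝ → ℂ) (s0 t0 D ϑ : ℝ), Crv F → 0 < D →
  (F t0 - F s0).re = -(D * Real.sin ϑ) → (F t0 - F s0).im = D * Real.cos ϑ →
  (∀ s t, ‖F t - F s‖ ≤ D) →
  ∃ (f : ℝ → ℂ) (θ : ℝ × ℝ → ℝ), (f = F ∨ f = fun t => F (-t)) ∧ Crv f ∧ Lift f θ

/-- **FRAME.** A good frame.  `γ` is a Jordan curve, `D` its diameter; some `u` with `‖u‖ = 1` such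
that both coordinates of `u (z - w)` are `< ‖P - Q‖` in absolute value.  Take `z0, w0` at maximal
distance `D ≥ ‖P - Q‖` (compactness) and `X + i Y = u (w0 - z0)`; `X, Y ≠ 0` because
`X² + Y² = D²` and `|X|, |Y| < D`.  Replace `u` by `u`, `i u`, `-u` or `-i u` to get `X < 0 < Y`, and
take `ϑ = arcsin (-X / D)`, `f t = u γ (exp (2 π t))`. -/
def Stmt_FRAME : Prop := ∀ (γ : Circle → ℂ) (u P Q : ℂ), Continuous γ → Function.Injective γ →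
  ‖u‖ = 1 → P ∈ range γ → Q ∈ range γ →
  (∀ z ∈ range γ, ∀ w ∈ range γ, |(u * (z - w)).re| < ‖P - Q‖ ∧ |(u * (z - w)).im| < ‖P - Q‖) →
  ∃ (u' : ℂ) (f : ℝ → ℂ) (s0 t0 D ϑ : ℝ), ‖u'‖ = 1 ∧ (∀ t, ∃ z ∈ range γ, f t = u' * z) ∧ Crv f ∧
    0 < D ∧ 0 < ϑ ∧ ϑ < Real.pi / 2 ∧ (f t0 - f s0).re = -(D * Real.sin ϑ) ∧
    (f t0 - f s0).im = D * Real.cos ϑ ∧ (∀ s t, ‖f t - f s‖ ≤ D) ∧
    (∀ s t, |(f t - f s).re| < D) ∧ ∀ s t, |(f t - f s).im| < D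

/-- **QUAD.** The quadrilateral of chords (helper77 writes it). -/
def Stmt_QUAD : Prop := ∀ (h : ℝ → ℂ) (θ : ℝ × ℝ → ℝ) (sm sp θ1 θ2 k1 k2 l : ℝ),
  Continuous h → ContinuousOn θ Strip → (∀ z ∈ Strip, Pol (h z.2 - h z.1) (θ z)) →
  (∀ z ∈ Strip, h z.2 ≠ h z.1) → θ2 < θ1 → θ1 - θ2 ≤ Real.pi / 2 → sm ≤ sp → 0 < l →
  sp + l < sm - l + 1 →
  (∀ s' : ℝ, sm < s' → s' < sm + 1 → θ2 ≤ θ (sm, s') ∧ θ (sm, s') ≤ θ2 + Real.pi) →
  (∀ s' : ℝ, sm - 1 < s' → s' < sm → θ2 - Real.pi ≤ θ (s', sm) ∧ θ (s', sm) ≤ θ2) →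
  (∀ s' : ℝ, sp < s' → s' < sp + 1 → θ1 ≤ θ (sp, s') ∧ θ (sp, s') ≤ θ1 + Real.pi) →
  (∀ s' : ℝ, sp - 1 < s' → s' < sp → θ1 - Real.pi ≤ θ (s', sp) ∧ θ (s', sp) ≤ θ1) →
  rt θ1 (h sm) < k1 → rt θ1 (h sp) < k1 → k2 < rt θ2 (h sm) → k2 < rt θ2 (h sp) →
  ∃ ρ0 : ℝ, 0 < ρ0 ∧ ∀ δ : ℝ, 0 < δ → ∃ q1 q2 : ℝ × ℝ → ℝ, Continuous q1 ∧ Continuous q2 ∧
    (∀ x ∈ Icc (0 : ℝ) 1, ∀ y ∈ Icc (0 : ℝ) 1, sm - l ≤ q1 (x, y) ∧ q1 (x, y) < q2 (x, y) ∧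
      q2 (x, y) ≤ sp + l ∧ rt θ1 (h (q1 (x, y))) ≤ k1 ∧ k2 ≤ rt θ2 (h (q1 (x, y))) ∧
      rt θ1 (h (q2 (x, y))) ≤ k1 ∧ k2 ≤ rt θ2 (h (q2 (x, y)))) ∧
    (∀ y ∈ Icc (0 : ℝ) 1, θ (q1 (0, y), q2 (0, y)) ≤ θ2) ∧
    (∀ y ∈ Icc (0 : ℝ) 1, θ1 ≤ θ (q1 (1, y), q2 (1, y))) ∧
    (∀ x ∈ Icc (0 : ℝ) 1, ‖h (q2 (x, 0)) - h (q1 (x, 0))‖ ≤ δ) ∧
    (∀ x ∈ Icc (0 : ℝ) 1, ρ0 ≤ ‖h (q2 (x, 1)) - h (q1 (x, 1))‖)

end Pool.MP_7ec17a_gt.D
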