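import Pool.Agent.Work.MP_7ec17a_gt_D.QUAD
import Pool.Agent.Work.Brouwer70.Brouwer

/-!
# Assembly
-/

set_option autoImplicit false

open Set

namespace Pool.MP_7ec17a_gt.D

open Pool.MP_7ec17a_gt.T Pool.MP_7ec17a_gt.M

lemma up_add_pi (θ : ℝ) (z : ℂ) : up (θ + Real.pi) z = -up θ z := by
  unfold up
  rw [Real.cos_add_pi, Real.sin_add_pi]
  ring

/-- `up θ2` in terms of `up θ1` and `rt θ1`. -/
lemma up_rot (θ1 θ2 : ℝ) (z : ℂ) :
    up θ2 z = Real.cos (θ1 - θ2) * up θ1 z + Real.sin (θ1 - θ2) * rt θ1 z := by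
  unfold up rt
  have e : θ2 = θ1 - (θ1 - θ2) := by ring
  have hc : Real.cos θ2 = Real.cos θ1 * Real.cos (θ1 - θ2) + Real.sin θ1 * Real.sin (θ1 - θ2) := by
    conv_lhs => rw [e, Real.cos_sub]
  have hs : Real.sin θ2 = Real.sin θ1 * Real.cos (θ1 - θ2) - Real.cos θ1 * Real.sin (θ1 - θ2) := by
    conv_lhs => rw [e, Real.sin_sub]
  rw [hc, hs]
  ring

lemma up_rot' (θ1 θ2 : ℝ) (z : ℂ) :
    up θ1 z = Real.cos (θ1 - θ2) * up θ2 z - Real.sin (θ1 - θ2) * rt θ2 z := by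
  have h := up_rot θ2 θ1 z
  have e : θ2 - θ1 = -(θ1 - θ2) := by ring
  rw [e, Real.cos_neg, Real.sin_neg] at h
  linarith

/-- A vector in the cone between the two directions. -/
lemma cone_rt {θ1 θ2 : ℝ} (h21 : θ2 < θ1) (hΩ : θ1 - θ2 ≤ Real.pi / 2) {z : ℂ}
    (h1 : up θ1 z ≤ 0) (h2 : 0 ≤ up θ2 z) : 0 ≤ rt θ1 z ∧ 0 ≤ rt θ2 z := by
  have hpi := Real.pi_pos
  have hs : 0 < Real.sin (θ1 - θ2) := Real.sin_pos_of_pos_of_lt_pi (by linarith) (by linarith)
  have hc : 0 ≤ Real.cos (θ1 - θ2) :=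
    Real.cos_nonneg_of_neg_pi_div_two_le_of_le (by linarith) hΩ
  constructor
  · have e := up_rot θ1 θ2 z
    by_contra hcon
    push Not at hcon
    have a1 := mul_neg_of_pos_of_neg hs hcon
    have a2 := mul_nonpos_of_nonneg_of_nonpos hc h1
    linarith
  · have e := up_rot' θ1 θ2 z
    by_contra hcon
    push Not at hcon
    have a1 := mul_neg_of_pos_of_neg hs hcon
    have a2 := mul_nonneg hc h2
    linarith

/-- The argument of a vector in the cone. -/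
lemma cone_arg {θ1 θ2 : ℝ} (h21 : θ2 < θ1) (h1 : θ1 < Real.pi / 2) (h2 : -(Real.pi / 2) < θ2)
    {v : ℂ} (hv : v ≠ 0) (u1 : up θ1 v ≤ 0) (u2 : 0 ≤ up θ2 v) :
    θ2 ≤ v.arg ∧ v.arg ≤ θ1 ∧ 0 < v.re := by
  have hpi := Real.pi_pos
  have hn : 0 < ‖v‖ := norm_pos_iff.2 hv
  have hP : Pol v v.arg := ⟨(Complex.norm_mul_cos_arg v).symm, (Complex.norm_mul_sin_arg v).symm⟩
  rw [up_pol hP] at u1 u2
  have s1 : Real.sin (v.arg - θ1) ≤ 0 := by
    by_contra hc
    push Not at hc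
    have := mul_pos hn hc
    linarith
  have s2 : 0 ≤ Real.sin (v.arg - θ2) := by
    by_contra hc
    push Not at hc
    have := mul_neg_of_pos_of_neg hn hc
    linarith
  have a1 := Complex.neg_pi_lt_arg v
  have a2 := Complex.arg_le_pi v
  have r1 : θ2 ≤ v.arg := by
    by_contra hc
    push Not at hc
    have b1 : v.arg - θ2 ≤ -Real.pi := by
      by_contra hc2
      push Not at hc2
      have b2 : 0 < Real.sin (-(v.arg - θ2)) :=
        Real.sin_pos_of_pos_of_lt_pi (by linarith) (by linarith)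
      rw [Real.sin_neg] at b2
      linarith
    have b3 : 0 < Real.sin (v.arg - θ1 + 2 * Real.pi) :=
      Real.sin_pos_of_pos_of_lt_pi (by linarith) (by linarith)
    rw [Real.sin_add_two_pi] at b3
    linarith
  have r2 : v.arg ≤ θ1 := by
    by_contra hc
    push Not at hc
    have b1 : Real.pi ≤ v.arg - θ1 := by
      by_contra hc2
      push Not at hc2
      have b2 : 0 < Real.sin (v.arg - θ1) :=
        Real.sin_pos_of_pos_of_lt_pi (by linarith) (by linarith)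
      linarith
    have b3 : 0 < Real.sin (v.arg - θ2 - Real.pi) :=
      Real.sin_pos_of_pos_of_lt_pi (by linarith) (by linarith)
    rw [Real.sin_sub_pi] at b3
    linarith
  refine ⟨r1, r2, ?_⟩
  rw [hP.1]
  exact mul_pos hn (Real.cos_pos_of_mem_Ioo ⟨by linarith, by linarith⟩)

lemma crv_int {f : ℝ → ℂ} (hf : Crv f) (t : ℝ) (n : ℤ) : f (t + n) = f t := by
  have h : Function.Periodic f 1 := hf.per
  have := h.int_mul n t
  rwa [mul_one] at this

lemma crv_ne {f : ℝ → ℂ} (hf : Crv f) : ∀ z ∈ Strip, f z.2 ≠ f z.1 := by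
  intro z hz h
  obtain ⟨n, hn⟩ := hf.inj _ _ h
  have h1 : z.1 < z.2 := hz.1
  have h2 : z.2 < z.1 + 1 := hz.2
  have h3 : (0 : ℝ) < n := by linarith
  have h4 : (n : ℝ) < 1 := by linarith
  have h5 : (0 : ℤ) < n := by exact_mod_cast h3
  have h6 : n < (1 : ℤ) := by exact_mod_cast h4
  omega

lemma lift_shift {f : ℝ → ℂ} {θ : ℝ × ℝ → ℝ} (hθ : Lift f θ) {s s' : ℝ} (h1 : s < s')
    (h2 : s' < s + 1) : θ (s + 1, s' + 1) = θ (s, s') + 2 * Real.pi := by
  have e1 := hθ.turn s s' h1 h2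
  have e2 := hθ.turn s' (s + 1) h2 (by linarith)
  rw [e1] at e2
  linarith

lemma sup_shift {f : ℝ → ℂ} {θ : ℝ × ℝ → ℝ} (hf : Crv f) (hθ : Lift f θ) {s ψ : ℝ}
    (h : Sup f θ s ψ) : Sup f θ (s + 1) (ψ + 2 * Real.pi) := by
  refine ⟨fun t => ?_, fun s' h1 h2 => ?_, fun s' h1 h2 => ?_⟩
  · have e : up (ψ + 2 * Real.pi) (f t - f (s + 1)) = up ψ (f t - f s) := by
      unfold up
      rw [Real.cos_add_two_pi, Real.sin_add_two_pi, hf.per]
    rw [e]
    exact h.above t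
  · have e := lift_shift hθ (s := s) (s' := s' - 1) (by linarith) (by linarith)
    rw [sub_add_cancel] at e
    have := h.row (s' - 1) (by linarith) (by linarith)
    rw [e]
    constructor <;> linarith [this.1, this.2]
  · have e := lift_shift hθ (s := s' - 1) (s' := s) (by linarith) (by linarith)
    rw [sub_add_cancel] at e
    have := h.col (s' - 1) (by linarith) (by linarith)
    rw [e]
    constructor <;> linarith [this.1, this.2]

/-- The final step: the four dimensional Poincare-Miranda theorem. -/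
lemma rect_of_quads {f : ℝ → ℂ} {θ : ℝ × ℝ → ℝ} (hf : Continuous f) (hθc : ContinuousOn θ Strip)
    (hP : ∀ z ∈ Strip, Pol (f z.2 - f z.1) (θ z)) {θ1 θ2 k1 k2 : ℝ} (h21 : θ2 < θ1)
    (h1 : θ1 < Real.pi / 2) (h2 : -(Real.pi / 2) < θ2) {A0 A1 B0 B1 μ C ρ r : ℝ}
    (hA : A1 < A0 + 1) (hB : B1 < B0 + 1) (hμ : 0 < μ)
    (hdist : ∀ s t, A0 ≤ s → s ≤ A1 → B0 ≤ t → t ≤ B1 → μ ≤ ‖f t - f s‖ ∧ ‖f t - f s‖ ≤ C)
    (hr : 0 < r) (hρ : C * (1 / r) ≤ ρ) {q1 q2 g1 g2 : ℝ × ℝ → ℝ}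
    (c1 : Continuous q1) (c2 : Continuous q2) (c3 : Continuous g1) (c4 : Continuous g2)
    (dq : ∀ x ∈ Icc (0 : ℝ) 1, ∀ y ∈ Icc (0 : ℝ) 1, A0 ≤ q1 (x, y) ∧ q1 (x, y) < q2 (x, y) ∧
      q2 (x, y) ≤ A1 ∧ rt θ1 (f (q1 (x, y))) ≤ k1 ∧ k2 ≤ rt θ2 (f (q1 (x, y))))
    (dg : ∀ x ∈ Icc (0 : ℝ) 1, ∀ y ∈ Icc (0 : ℝ) 1, B0 ≤ g1 (x, y) ∧ g1 (x, y) < g2 (x, y) ∧
      g2 (x, y) ≤ B1 ∧ k1 ≤ rt θ1 (f (g2 (x, y))) ∧ rt θ2 (f (g2 (x, y))) ≤ k2)
    (q0 : ∀ y ∈ Icc (0 : ℝ) 1, θ (q1 (0, y), q2 (0, y)) ≤ θ2)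
    (q1' : ∀ y ∈ Icc (0 : ℝ) 1, θ1 ≤ θ (q1 (1, y), q2 (1, y)))
    (qn : ∀ x ∈ Icc (0 : ℝ) 1, ‖f (q2 (x, 0)) - f (q1 (x, 0))‖ ≤ μ * (1 / r))
    (qf : ∀ x ∈ Icc (0 : ℝ) 1, ρ ≤ ‖f (q2 (x, 1)) - f (q1 (x, 1))‖)
    (g0 : ∀ y ∈ Icc (0 : ℝ) 1, θ (g1 (0, y), g2 (0, y)) - Real.pi ≤ θ2)
    (g1' : ∀ y ∈ Icc (0 : ℝ) 1, θ1 ≤ θ (g1 (1, y), g2 (1, y)) - Real.pi)
    (gn : ∀ x ∈ Icc (0 : ℝ) 1, ‖f (g2 (x, 0)) - f (g1 (x, 0))‖ ≤ μ * (1 / r))
    (gf : ∀ x ∈ Icc (0 : ℝ) 1, ρ ≤ ‖f (g2 (x, 1)) - f (g1 (x, 1))‖) :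
    ∃ (s s' t t' : ℝ) (v : ℂ), v ≠ 0 ∧ f s' = f s + v ∧
      f t' = f s + Complex.I * (r : ℂ) * v ∧ f t = f s + v + Complex.I * (r : ℂ) * v := by
  have hpi := Real.pi_pos
  have h1r : 0 < 1 / r := by positivity
  have hrC : (r : ℂ) ≠ 0 := Complex.ofReal_ne_zero.2 hr.ne'
  -- the coordinates
  have hbox : ∀ x ∈ Icc (0 : Fin 4 → ℝ) 1, ∀ i, x i ∈ Icc (0 : ℝ) 1 := fun x hx i =>
    ⟨hx.1 i, hx.2 i⟩
  set S : (Fin 4 → ℝ) → ℝ := fun x => q1 (x 0, x 1) with hS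
  set S' : (Fin 4 → ℝ) → ℝ := fun x => q2 (x 0, x 1) with hS'
  set T : (Fin 4 → ℝ) → ℝ := fun x => g1 (x 2, x 3) with hT
  set T' : (Fin 4 → ℝ) → ℝ := fun x => g2 (x 2, x 3) with hT'
  have cS : Continuous S := by fun_prop
  have cS' : Continuous S' := by fun_prop
  have cT : Continuous T := by fun_prop
  have cT' : Continuous T' := by fun_prop
  set V : (Fin 4 → ℝ) → ℂ := fun x => -Complex.I * (f (T' x) - f (S x)) * ((1 / r : ℝ) : ℂ) with hV
  have cV : Continuous V := by fun_prop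
  have hVre : ∀ x, (V x).re = (f (T' x) - f (S x)).im * (1 / r) := fun x => by
    simp only [hV, Complex.mul_re, Complex.mul_im, Complex.neg_re, Complex.neg_im, Complex.I_re,
      Complex.I_im, Complex.ofReal_re, Complex.ofReal_im]
    ring
  have hVim : ∀ x, (V x).im = -((f (T' x) - f (S x)).re * (1 / r)) := fun x => by
    simp only [hV, Complex.mul_re, Complex.mul_im, Complex.neg_re, Complex.neg_im, Complex.I_re,
      Complex.I_im, Complex.ofReal_re, Complex.ofReal_im]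
    ring
  have hVn : ∀ x, ‖V x‖ = ‖f (T' x) - f (S x)‖ * (1 / r) := fun x => by
    simp only [hV]
    rw [norm_mul, norm_mul, norm_neg, Complex.norm_I, one_mul, Complex.norm_real,
      Real.norm_eq_abs, abs_of_pos h1r]
  have hVI : ∀ x, f (S x) + Complex.I * (r : ℂ) * V x = f (T' x) := fun x => by
    simp only [hV]
    have e : Complex.I * (r : ℂ) * (-Complex.I * (f (T' x) - f (S x)) * ((1 / r : ℝ) : ℂ)) =
        (-(Complex.I * Complex.I)) * ((r : ℂ) * ((1 / r : ℝ) : ℂ)) * (f (T' x) - f (S x)) := by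
      ring
    rw [e, Complex.I_mul_I]
    push_cast
    rw [mul_one_div_cancel hrC]
    ring
  -- bounds on the box
  have DS : ∀ x ∈ Icc (0 : Fin 4 → ℝ) 1, _ := fun x hx => dq (x 0) (hbox x hx 0) (x 1) (hbox x hx 1)
  have DT : ∀ x ∈ Icc (0 : Fin 4 → ℝ) 1, _ := fun x hx => dg (x 2) (hbox x hx 2) (x 3) (hbox x hx 3)
  have hd : ∀ x ∈ Icc (0 : Fin 4 → ℝ) 1, μ * (1 / r) ≤ ‖V x‖ ∧ ‖V x‖ ≤ ρ := fun x hx => by
    obtain ⟨a1, a2, a3, -, -⟩ := DS x hx
    obtain ⟨b1, b2, b3, -, -⟩ := DT x hx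
    have := hdist (S x) (T' x) a1 (by simp only [hS]; linarith) (by simp only [hT']; linarith) b3
    rw [hVn]
    exact ⟨mul_le_mul_of_nonneg_right this.1 h1r.le,
      (mul_le_mul_of_nonneg_right this.2 h1r.le).trans hρ⟩
  have hV0 : ∀ x ∈ Icc (0 : Fin 4 → ℝ) 1, V x ≠ 0 := fun x hx h => by
    have := (hd x hx).1
    rw [h, norm_zero] at this
    have := mul_pos hμ h1r
    linarith
  have hup1 : ∀ x, up θ1 (V x) = -(rt θ1 (f (T' x) - f (S x)) * (1 / r)) := fun x => by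
    unfold up rt
    rw [hVre, hVim]
    ring
  have hup2 : ∀ x, up θ2 (V x) = -(rt θ2 (f (T' x) - f (S x)) * (1 / r)) := fun x => by
    unfold up rt
    rw [hVre, hVim]
    ring
  have hcone : ∀ x ∈ Icc (0 : Fin 4 → ℝ) 1,
      θ2 ≤ (V x).arg ∧ (V x).arg ≤ θ1 ∧ 0 < (V x).re := fun x hx => by
    obtain ⟨-, -, -, a4, a5⟩ := DS x hx
    obtain ⟨-, -, -, b4, b5⟩ := DT x hx
    refine cone_arg h21 h1 h2 (hV0 x hx) ?_ ?_
    · rw [hup1, rt_sub]
      have := mul_nonneg (show 0 ≤ rt θ1 (f (T' x)) - rt θ1 (f (S x)) by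
        simp only [hS, hT']; linarith) h1r.le
      linarith
    · rw [hup2, rt_sub]
      have := mul_nonneg (show 0 ≤ rt θ2 (f (S x)) - rt θ2 (f (T' x)) by
        simp only [hS, hT']; linarith) h1r.le
      linarith
  have sS : ∀ x ∈ Icc (0 : Fin 4 → ℝ) 1, (S x, S' x) ∈ Strip := fun x hx => by
    obtain ⟨a1, a2, a3, -, -⟩ := DS x hx
    exact ⟨a2, by show S' x < S x + 1; simp only [hS, hS']; linarith⟩
  have sT : ∀ x ∈ Icc (0 : Fin 4 → ℝ) 1, (T x, T' x) ∈ Strip := fun x hx => by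
    obtain ⟨a1, a2, a3, -, -⟩ := DT x hx
    exact ⟨a2, by show T' x < T x + 1; simp only [hT, hT']; linarith⟩
  have carg : ContinuousOn (fun x => (V x).arg) (Icc (0 : Fin 4 → ℝ) 1) := by
    intro x hx
    have hsl : V x ∈ Complex.slitPlane := Or.inl (hcone x hx).2.2
    exact ContinuousAt.comp_continuousWithinAt (f := V) (Complex.continuousAt_arg hsl)
      cV.continuousWithinAt
  have cθS : ContinuousOn (fun x => θ (S x, S' x)) (Icc (0 : Fin 4 → ℝ) 1) :=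
    hθc.comp (by fun_prop) sS
  have cθT : ContinuousOn (fun x => θ (T x, T' x)) (Icc (0 : Fin 4 → ℝ) 1) :=
    hθc.comp (by fun_prop) sT
  set G : (Fin 4 → ℝ) → (Fin 4 → ℝ) := fun x => ![θ (S x, S' x) - (V x).arg,
    ‖f (S' x) - f (S x)‖ - ‖V x‖, θ (T x, T' x) - Real.pi - (V x).arg,
    ‖f (T' x) - f (T x)‖ - ‖V x‖] with hG
  obtain ⟨x, hx, hx0⟩ := Pool.Agent.Work.Brouwer70.poincare_miranda_box (0 : Fin 4 → ℝ) 1
    zero_le_one G (by
      rw [continuousOn_pi]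
      intro i
      fin_cases i
      · exact cθS.sub carg
      · exact Continuous.continuousOn (by
          show Continuous (fun x => ‖f (S' x) - f (S x)‖ - ‖V x‖)
          fun_prop)
      · exact (cθT.sub continuousOn_const).sub carg
      · exact Continuous.continuousOn (by
          show Continuous (fun x => ‖f (T' x) - f (T x)‖ - ‖V x‖)
          fun_prop))
    (by
      intro x hx i hi
      have hx' := hbox x hx
      fin_cases i
      · have hi' : x 0 = 0 := hi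
        show θ (q1 (x 0, x 1), q2 (x 0, x 1)) - (V x).arg ≤ 0
        rw [hi']
        linarith [q0 (x 1) (hx' 1), (hcone x hx).1]
      · have hi' : x 1 = 0 := hi
        show ‖f (q2 (x 0, x 1)) - f (q1 (x 0, x 1))‖ - ‖V x‖ ≤ 0
        rw [hi']
        linarith [qn (x 0) (hx' 0), (hd x hx).1]
      · have hi' : x 2 = 0 := hi
        show θ (g1 (x 2, x 3), g2 (x 2, x 3)) - Real.pi - (V x).arg ≤ 0
        rw [hi']
        linarith [g0 (x 3) (hx' 3), (hcone x hx).1]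
      · have hi' : x 3 = 0 := hi
        show ‖f (g2 (x 2, x 3)) - f (g1 (x 2, x 3))‖ - ‖V x‖ ≤ 0
        rw [hi']
        linarith [gn (x 2) (hx' 2), (hd x hx).1])
    (by
      intro x hx i hi
      have hx' := hbox x hx
      fin_cases i
      · have hi' : x 0 = 1 := hi
        show 0 ≤ θ (q1 (x 0, x 1), q2 (x 0, x 1)) - (V x).arg
        rw [hi']
        linarith [q1' (x 1) (hx' 1), (hcone x hx).2.1]
      · have hi' : x 1 = 1 := hi
        show 0 ≤ ‖f (q2 (x 0, x 1)) - f (q1 (x 0, x 1))‖ - ‖V x‖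
        rw [hi']
        linarith [qf (x 0) (hx' 0), (hd x hx).2]
      · have hi' : x 2 = 1 := hi
        show 0 ≤ θ (g1 (x 2, x 3), g2 (x 2, x 3)) - Real.pi - (V x).arg
        rw [hi']
        linarith [g1' (x 3) (hx' 3), (hcone x hx).2.1]
      · have hi' : x 3 = 1 := hi
        show 0 ≤ ‖f (g2 (x 2, x 3)) - f (g1 (x 2, x 3))‖ - ‖V x‖
        rw [hi']
        linarith [gf (x 2) (hx' 2), (hd x hx).2])
  have z0 : θ (S x, S' x) - (V x).arg = 0 := congrFun hx0 0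
  have z1 : ‖f (S' x) - f (S x)‖ - ‖V x‖ = 0 := congrFun hx0 1
  have z2 : θ (T x, T' x) - Real.pi - (V x).arg = 0 := congrFun hx0 2
  have z3 : ‖f (T' x) - f (T x)‖ - ‖V x‖ = 0 := congrFun hx0 3
  have w1 : f (S' x) - f (S x) = V x := by
    have hp := hP _ (sS x hx)
    have e1 : θ (S x, S' x) = (V x).arg := by linarith
    have e2 : ‖f (S' x) - f (S x)‖ = ‖V x‖ := by linarith
    apply Complex.ext
    · rw [hp.1]
      simp only
      rw [e1, e2, Complex.norm_mul_cos_arg]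
    · rw [hp.2]
      simp only
      rw [e1, e2, Complex.norm_mul_sin_arg]
  have w2 : f (T x) - f (T' x) = V x := by
    have hp := hP _ (sT x hx)
    have e1 : θ (T x, T' x) = (V x).arg + Real.pi := by linarith
    have e2 : ‖f (T' x) - f (T x)‖ = ‖V x‖ := by linarith
    have e3 : f (T x) - f (T' x) = -(f (T' x) - f (T x)) := by ring
    apply Complex.ext
    · rw [e3, Complex.neg_re, hp.1]
      simp only
      rw [e1, e2, Real.cos_add_pi, mul_neg, neg_neg, Complex.norm_mul_cos_arg]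
    · rw [e3, Complex.neg_im, hp.2]
      simp only
      rw [e1, e2, Real.sin_add_pi, mul_neg, neg_neg, Complex.norm_mul_sin_arg]
  refine ⟨S x, S' x, T x, T' x, V x, hV0 x hx, ?_, ?_, ?_⟩
  · rw [← w1]; ring
  · rw [hVI]
  · have e : f (S x) + V x + Complex.I * (r : ℂ) * V x =
        (f (S x) + Complex.I * (r : ℂ) * V x) + V x := by ring
    rw [e, hVI, ← w2]
    ring

/-- The curve with the two trapping directions. -/
theorem assem (hSUPP : Stmt_SUPP) (hMONO : Stmt_MONO) {f : ℝ → ℂ} {θ : ℝ × ℝ → ℝ} (hf : Crv f)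
    (hθ : Lift f θ) {θ1 θ2 : ℝ} (h21 : θ2 < θ1) (hΩ : θ1 - θ2 ≤ Real.pi / 2)
    (h1 : θ1 < Real.pi / 2) (h2 : -(Real.pi / 2) < θ2) {sp tm sm tp : ℝ}
    (hp1 : ∀ x, 0 ≤ up θ1 (f x - f sp)) (hq1 : ∀ x, 0 ≤ up θ1 (f tm - f x))
    (hr1 : 0 < rt θ1 (f tm - f sp)) (hp2 : ∀ x, 0 ≤ up θ2 (f x - f sm))
    (hq2 : ∀ x, 0 ≤ up θ2 (f tp - f x)) (hr2 : rt θ2 (f tp - f sm) < 0) :
    ∃ R : ℝ, 0 < R ∧ ∀ r : ℝ, R ≤ r → ∃ (s s' t t' : ℝ) (v : ℂ), v ≠ 0 ∧ f s' = f s + v ∧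
      f t' = f s + Complex.I * (r : ℂ) * v ∧ f t = f s + v + Complex.I * (r : ℂ) * v := by
  have hpi := Real.pi_pos
  have hne := crv_ne hf
  -- lifted directions
  obtain ⟨n1, S1⟩ := hSUPP f θ sm θ2 hf hθ hp2
  obtain ⟨n2, S2⟩ := hSUPP f θ sp θ1 hf hθ hp1
  obtain ⟨n3, S3⟩ := hSUPP f θ tp (θ2 + Real.pi) hf hθ (fun x => by
    rw [up_add_pi]
    have := hq2 x
    rw [up_sub] at this ⊢
    linarith)
  obtain ⟨n4, S4⟩ := hSUPP f θ tm (θ1 + Real.pi) hf hθ (fun x => by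
    rw [up_add_pi]
    have := hq1 x
    rw [up_sub] at this ⊢
    linarith)
  have S5 := sup_shift hf hθ S1
  have F1 : f (sm + n1) = f sm := crv_int hf _ _
  have F2 : f (sp + n2) = f sp := crv_int hf _ _
  have F3 : f (tp + n3) = f tp := crv_int hf _ _
  have F4 : f (tm + n4) = f tm := crv_int hf _ _
  generalize sm + (n1 : ℝ) = a at *
  generalize sp + (n2 : ℝ) = b at *
  generalize tp + (n3 : ℝ) = c at *
  generalize tm + (n4 : ℝ) = d at *
  have o1 : a ≤ b := hMONO f θ a b θ2 θ1 hf hθ S1 S2 h21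
  have o2 : b ≤ c := hMONO f θ b c θ1 (θ2 + Real.pi) hf hθ S2 S3 (by linarith)
  have o3 : c ≤ d := hMONO f θ c d (θ2 + Real.pi) (θ1 + Real.pi) hf hθ S3 S4 (by linarith)
  have o4 : d ≤ a + 1 := hMONO f θ d (a + 1) (θ1 + Real.pi) (θ2 + 2 * Real.pi) hf hθ S4 S5
    (by linarith)
  -- the positions of the four points
  have c1 := cone_rt h21 hΩ (z := f sp - f sm) (by
    have := hp1 sm
    rw [up_sub] at this ⊢
    linarith) (hp2 sp)
  have c2 := cone_rt h21 hΩ (z := f tp - f tm) (by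
    have := hq1 tp
    rw [up_sub] at this ⊢
    linarith) (hq2 tm)
  rw [rt_sub, rt_sub] at c1 c2
  rw [rt_sub] at hr1 hr2
  have o2' : b < c := by
    rcases lt_or_eq_of_le o2 with h | h
    · exact h
    · exfalso
      rw [h, F3] at F2
      rw [← F2] at c1
      linarith [c1.2]
  have o4' : d < a + 1 := by
    rcases lt_or_eq_of_le o4 with h | h
    · exact h
    · exfalso
      rw [h, hf.per, F1] at F4
      rw [← F4] at hr1
      linarith [c1.1]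
  set k1 := (rt θ1 (f sp) + rt θ1 (f tm)) / 2 with hk1
  set k2 := (rt θ2 (f sm) + rt θ2 (f tp)) / 2 with hk2
  set l := min (c - b) (a + 1 - d) / 4 with hl
  have hl0 : 0 < l := by
    have : 0 < min (c - b) (a + 1 - d) := lt_min (by linarith) (by linarith)
    positivity
  have hl1 : 4 * l ≤ c - b := by
    have := min_le_left (c - b) (a + 1 - d)
    rw [hl]; linarith
  have hl2 : 4 * l ≤ a + 1 - d := by
    have := min_le_right (c - b) (a + 1 - d)
    rw [hl]; linarith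
  obtain ⟨ρ1, hρ1, Q1⟩ := stmt_QUAD f θ a b θ1 θ2 k1 k2 l hf.cont hθ.cont hθ.pol hne h21 hΩ o1 hl0
    (by linarith) S1.row S1.col S2.row S2.col (by rw [F1]; linarith [c1.1]) (by rw [F2]; linarith)
    (by rw [F1]; linarith) (by rw [F2]; linarith [c1.2])
  have hrtneg : ∀ (φ : ℝ) (z : ℂ), rt φ (-z) = -rt φ z := fun φ z => by
    unfold rt
    rw [Complex.neg_re, Complex.neg_im]
    ring
  obtain ⟨ρ2, hρ2, Q2⟩ := stmt_QUAD (fun t => -f t) (fun z => θ z - Real.pi) c d θ1 θ2 (-k1) (-k2) l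
    hf.cont.neg (hθ.cont.sub continuousOn_const)
    (fun z hz => by
      have := hθ.pol z hz
      have e : -f z.2 - -f z.1 = -(f z.2 - f z.1) := by ring
      constructor
      · rw [e, Complex.neg_re, norm_neg, Real.cos_sub_pi, this.1]
        ring
      · rw [e, Complex.neg_im, norm_neg, Real.sin_sub_pi, this.2]
        ring)
    (fun z hz h => hne z hz (neg_injective h)) h21 hΩ o3 hl0 (by linarith)
    (fun s' a1 a2 => by
      have := S3.row s' a1 a2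
      constructor <;> linarith [this.1, this.2])
    (fun s' a1 a2 => by
      have := S3.col s' a1 a2
      constructor <;> linarith [this.1, this.2])
    (fun s' a1 a2 => by
      have := S4.row s' a1 a2
      constructor <;> linarith [this.1, this.2])
    (fun s' a1 a2 => by
      have := S4.col s' a1 a2
      constructor <;> linarith [this.1, this.2])
    (by simp only [hrtneg]; rw [F3]; linarith [c2.1])
    (by simp only [hrtneg]; rw [F4]; linarith)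
    (by simp only [hrtneg]; rw [F3]; linarith)
    (by simp only [hrtneg]; rw [F4]; linarith [c2.2])
  -- distances
  have hfc := hf.cont
  obtain ⟨z0, hz0, hzmin⟩ := (isCompact_Icc.prod isCompact_Icc).exists_isMinOn
    (s := Icc (a - l) (b + l) ×ˢ Icc (c - l) (d + l)) (f := fun z : ℝ × ℝ => ‖f z.2 - f z.1‖)
    ⟨(a, c), ⟨by linarith, by linarith⟩, ⟨by linarith, by linarith⟩⟩ (by fun_prop)
  have hμ : 0 < ‖f z0.2 - f z0.1‖ := by
    rw [norm_pos_iff, sub_ne_zero]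
    refine hne z0 ⟨?_, ?_⟩
    · linarith [hz0.1.2, hz0.2.1]
    · linarith [hz0.1.1, hz0.2.2]
  obtain ⟨C, hC⟩ := (isCompact_Icc.prod isCompact_Icc).exists_bound_of_continuousOn
    (s := Icc (a - l) (b + l) ×ˢ Icc (c - l) (d + l)) (f := fun z : ℝ × ℝ => f z.2 - f z.1)
    (by fun_prop)
  have hC0 : 0 < C := lt_of_lt_of_le hμ (hC z0 hz0)
  have hm : 0 < min ρ1 ρ2 := lt_min hρ1 hρ2
  refine ⟨C / min ρ1 ρ2, by positivity, fun r hr => ?_⟩
  have hr0 : 0 < r := lt_of_lt_of_le (by positivity) hr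
  have h1r : 0 < 1 / r := by positivity
  have hρ : C * (1 / r) ≤ min ρ1 ρ2 := by
    rw [div_le_iff₀ hm] at hr
    rw [mul_one_div, div_le_iff₀ hr0]
    linarith
  obtain ⟨q1, q2, cq1, cq2, dq, q0, q1', qn, qf⟩ := Q1 (‖f z0.2 - f z0.1‖ * (1 / r))
    (mul_pos hμ h1r)
  obtain ⟨g1, g2, cg1, cg2, dg, g0, g1', gn, gf⟩ := Q2 (‖f z0.2 - f z0.1‖ * (1 / r))
    (mul_pos hμ h1r)
  have hnn : ∀ z w : ℂ, ‖-z - -w‖ = ‖z - w‖ := fun z w => by
    have e : -z - -w = -(z - w) := by ring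
    rw [e, norm_neg]
  refine rect_of_quads (θ := θ) (k1 := k1) (k2 := k2) (A0 := a - l) (A1 := b + l) (B0 := c - l)
    (B1 := d + l) (μ := ‖f z0.2 - f z0.1‖) (C := C) (ρ := min ρ1 ρ2) hf.cont hθ.cont hθ.pol h21 h1 h2
    (by linarith) (by linarith) hμ
    (fun s t e1 e2 e3 e4 => by
      have hst : (s, t) ∈ Icc (a - l) (b + l) ×ˢ Icc (c - l) (d + l) := ⟨⟨e1, e2⟩, ⟨e3, e4⟩⟩
      exact ⟨hzmin hst, hC (s, t) hst⟩) hr0 hρ cq1 cq2 cg1 cg2
    (fun x hx y hy => by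
      obtain ⟨e1, e2, e3, e4, e5, -, -⟩ := dq x hx y hy
      exact ⟨e1, e2, e3, e4, e5⟩)
    (fun x hx y hy => by
      obtain ⟨e1, e2, e3, -, -, e6, e7⟩ := dg x hx y hy
      simp only [hrtneg] at e6 e7
      exact ⟨e1, e2, e3, by linarith, by linarith⟩)
    q0 q1' qn (fun x hx => (min_le_left _ _).trans (qf x hx)) g0 g1'
    (fun x hx => by
      have := gn x hx
      rwa [hnn] at this)
    (fun x hx => by
      have := gf x hx
      rw [hnn] at this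
      exact (min_le_right _ _).trans this)

end Pool.MP_7ec17a_gt.D
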