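import Pool.Agent.Work.MP_7ec17a_gt_D.Interface

/-!
# The quadrilateral of chords
-/

set_option autoImplicit false

open Set

namespace Pool.MP_7ec17a_gt.D

open Pool.MP_7ec17a_gt.T Pool.MP_7ec17a_gt.M

lemma rt_sub (θ : ℝ) (z w : ℂ) : rt θ (z - w) = rt θ z - rt θ w := by
  unfold rt
  rw [Complex.sub_re, Complex.sub_im]
  ring

lemma up_sub (θ : ℝ) (z w : ℂ) : up θ (z - w) = up θ z - up θ w := by
  unfold up
  rw [Complex.sub_re, Complex.sub_im]
  ring

lemma continuous_rt (θ : ℝ) : Continuous (rt θ) := by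
  unfold rt
  fun_prop

lemma continuous_up (θ : ℝ) : Continuous (up θ) := by
  unfold up
  fun_prop

lemma cos_nonpos_of_rt {w : ℂ} {φ θ : ℝ} (h : Pol w φ) (h0 : w ≠ 0) (hr : rt θ w ≤ 0) :
    Real.cos (φ - θ) ≤ 0 := by
  rw [rt_pol h] at hr
  by_contra hc
  push Not at hc
  have := mul_pos (norm_pos_iff.2 h0) hc
  linarith

lemma quad_build {h : ℝ → ℂ} {θ : ℝ × ℝ → ℝ} {sm sp θ1 θ2 k1 k2 l : ℝ} (hc : Continuous h)
    (hne : ∀ z ∈ Strip, h z.2 ≠ h z.1) (hlen : sp + l < sm - l + 1)
    (S0 S1 S0' S1' τ0 : ℝ) (b0 : sm - l ≤ S0) (b1 : S1' ≤ sp + l) (hτ0 : 0 < τ0)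
    (hΛ : ∀ s, S0 ≤ s → s ≤ S1 → rt θ1 (h s) ≤ k1 ∧ k2 ≤ rt θ2 (h s))
    (hΛ' : ∀ s, S0' ≤ s → s ≤ S1' → rt θ1 (h s) ≤ k1 ∧ k2 ≤ rt θ2 (h s))
    (n : ℝ → ℝ → ℝ) (m1 m2 : ℝ → ℝ) (hm1 : Continuous m1) (hm2 : Continuous m2)
    (hnc : ∀ τ, Continuous (n τ))
    (hn : ∀ τ, 0 < τ → τ ≤ τ0 → ∀ x ∈ Icc (0 : ℝ) 1, S0 ≤ n τ x ∧ n τ x ≤ S1 ∧
      S0' ≤ n τ x + τ ∧ n τ x + τ ≤ S1')
    (hm : ∀ x ∈ Icc (0 : ℝ) 1, S0 ≤ m1 x ∧ m1 x ≤ S1 ∧ S0' ≤ m2 x ∧ m2 x ≤ S1' ∧ m1 x < m2 x)
    (h0 : ∀ τ, 0 < τ → τ ≤ τ0 → ∀ y ∈ Icc (0 : ℝ) 1,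
      θ ((1 - y) * n τ 0 + y * m1 0, (1 - y) * (n τ 0 + τ) + y * m2 0) ≤ θ2)
    (h1 : ∀ τ, 0 < τ → τ ≤ τ0 → ∀ y ∈ Icc (0 : ℝ) 1,
      θ1 ≤ θ ((1 - y) * n τ 1 + y * m1 1, (1 - y) * (n τ 1 + τ) + y * m2 1)) :
    ∃ ρ0 : ℝ, 0 < ρ0 ∧ ∀ δ : ℝ, 0 < δ → ∃ q1 q2 : ℝ × ℝ → ℝ, Continuous q1 ∧ Continuous q2 ∧
    (∀ x ∈ Icc (0 : ℝ) 1, ∀ y ∈ Icc (0 : ℝ) 1, sm - l ≤ q1 (x, y) ∧ q1 (x, y) < q2 (x, y) ∧
      q2 (x, y) ≤ sp + l ∧ rt θ1 (h (q1 (x, y))) ≤ k1 ∧ k2 ≤ rt θ2 (h (q1 (x, y))) ∧
      rt θ1 (h (q2 (x, y))) ≤ k1 ∧ k2 ≤ rt θ2 (h (q2 (x, y)))) ∧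
    (∀ y ∈ Icc (0 : ℝ) 1, θ (q1 (0, y), q2 (0, y)) ≤ θ2) ∧
    (∀ y ∈ Icc (0 : ℝ) 1, θ1 ≤ θ (q1 (1, y), q2 (1, y))) ∧
    (∀ x ∈ Icc (0 : ℝ) 1, ‖h (q2 (x, 0)) - h (q1 (x, 0))‖ ≤ δ) ∧
    (∀ x ∈ Icc (0 : ℝ) 1, ρ0 ≤ ‖h (q2 (x, 1)) - h (q1 (x, 1))‖) := by
  have i0 : (0 : ℝ) ∈ Icc (0 : ℝ) 1 := ⟨le_rfl, zero_le_one⟩
  -- the far side
  obtain ⟨x0, hx0, hmin⟩ := isCompact_Icc.exists_isMinOn (s := Icc (0 : ℝ) 1)
    (f := fun x => ‖h (m2 x) - h (m1 x)‖) ⟨0, i0⟩ (by fun_prop)
  have hx0' := hm x0 hx0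
  have hpos : 0 < ‖h (m2 x0) - h (m1 x0)‖ := by
    rw [norm_pos_iff, sub_ne_zero]
    exact hne (m1 x0, m2 x0) ⟨hx0'.2.2.2.2, by
      show m2 x0 < m1 x0 + 1
      linarith [hx0'.1, hx0'.2.2.2.1]⟩
  refine ⟨‖h (m2 x0) - h (m1 x0)‖, hpos, fun δ hδ => ?_⟩
  -- the near side
  have huc : UniformContinuousOn h (Icc (sm - l) (sp + l)) :=
    isCompact_Icc.uniformContinuousOn_of_continuous hc.continuousOn
  obtain ⟨ε, hε, hu⟩ := Metric.uniformContinuousOn_iff.1 huc δ hδ
  set τ := min τ0 (ε / 2) with hτ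
  have hτp : 0 < τ := lt_min hτ0 (by linarith)
  have hτl : τ ≤ τ0 := min_le_left _ _
  have hτε : τ < ε := lt_of_le_of_lt (min_le_right _ _) (by linarith)
  have hnc' := hnc τ
  have hdom : ∀ x ∈ Icc (0 : ℝ) 1, ∀ y ∈ Icc (0 : ℝ) 1,
      (S0 ≤ (1 - y) * n τ x + y * m1 x ∧ (1 - y) * n τ x + y * m1 x ≤ S1) ∧
      (S0' ≤ (1 - y) * (n τ x + τ) + y * m2 x ∧ (1 - y) * (n τ x + τ) + y * m2 x ≤ S1') ∧
      (1 - y) * n τ x + y * m1 x < (1 - y) * (n τ x + τ) + y * m2 x := by
    intro x hx y hy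
    obtain ⟨a1, a2, a3, a4⟩ := hn τ hτp hτl x hx
    obtain ⟨c1, c2, c3, c4, c5⟩ := hm x hx
    have hy1 : 0 ≤ 1 - y := by linarith [hy.2]
    refine ⟨⟨?_, ?_⟩, ⟨?_, ?_⟩, ?_⟩
    · nlinarith [mul_le_mul_of_nonneg_left a1 hy1, mul_le_mul_of_nonneg_left c1 hy.1]
    · nlinarith [mul_le_mul_of_nonneg_left a2 hy1, mul_le_mul_of_nonneg_left c2 hy.1]
    · nlinarith [mul_le_mul_of_nonneg_left a3 hy1, mul_le_mul_of_nonneg_left c3 hy.1]
    · nlinarith [mul_le_mul_of_nonneg_left a4 hy1, mul_le_mul_of_nonneg_left c4 hy.1]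
    · rcases lt_or_eq_of_le hy.1 with h2 | h2
      · have k1 := mul_lt_mul_of_pos_left c5 h2
        have k2 := mul_nonneg hy1 hτp.le
        nlinarith
      · rw [← h2]
        linarith
  refine ⟨fun z => (1 - z.2) * n τ z.1 + z.2 * m1 z.1,
    fun z => (1 - z.2) * (n τ z.1 + τ) + z.2 * m2 z.1, by fun_prop, by fun_prop, ?_, ?_, ?_, ?_, ?_⟩
  · intro x hx y hy
    obtain ⟨d1, d2, d3⟩ := hdom x hx y hy
    have e1 := hΛ _ d1.1 d1.2
    have e2 := hΛ' _ d2.1 d2.2
    exact ⟨b0.trans d1.1, d3, d2.2.trans b1, e1.1, e1.2, e2.1, e2.2⟩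
  · intro y hy
    exact h0 τ hτp hτl y hy
  · intro y hy
    exact h1 τ hτp hτl y hy
  · intro x hx
    obtain ⟨d1, d2, d3⟩ := hdom x hx 0 i0
    simp only [sub_zero, one_mul, zero_mul, add_zero] at d1 d2 d3 ⊢
    have hd : dist (h (n τ x + τ)) (h (n τ x)) < δ := by
      refine hu _ ⟨?_, d2.2.trans b1⟩ _ ⟨b0.trans d1.1, ?_⟩ ?_
      · linarith [b0.trans d1.1]
      · linarith [d2.2.trans b1]
      · rw [Real.dist_eq]
        have : n τ x + τ - n τ x = τ := by ring
        rw [this, abs_of_pos hτp]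
        exact hτε
    rw [dist_eq_norm] at hd
    exact hd.le
  · intro x hx
    simp only [sub_self, zero_mul, one_mul, zero_add]
    exact hmin hx

theorem stmt_QUAD : Stmt_QUAD := by
  intro h θ sm sp θ1 θ2 k1 k2 l hc hθc hP hne h21 hΩ hs hl hlen Rm Cm Rp Cp r1 r2 r3 r4
  have hpi := Real.pi_pos
  have hrc1 : Continuous (fun s => rt θ1 (h s)) := (continuous_rt θ1).comp hc
  have hrc2 : Continuous (fun s => rt θ2 (h s)) := (continuous_rt θ2).comp hc
  -- a smaller extension
  obtain ⟨l', hl', hl'l, hin⟩ : ∃ l' : ℝ, 0 < l' ∧ l' ≤ l ∧ ∀ s, (|s - sm| ≤ l' ∨ |s - sp| ≤ l') →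
      rt θ1 (h s) < k1 ∧ k2 < rt θ2 (h s) := by
    have ho : IsOpen {s : ℝ | rt θ1 (h s) < k1 ∧ k2 < rt θ2 (h s)} :=
      (isOpen_lt hrc1 continuous_const).inter (isOpen_lt continuous_const hrc2)
    obtain ⟨ε1, hε1, hb1⟩ := Metric.isOpen_iff.1 ho sm ⟨r1, r3⟩
    obtain ⟨ε2, hε2, hb2⟩ := Metric.isOpen_iff.1 ho sp ⟨r2, r4⟩
    refine ⟨min l (min (ε1 / 2) (ε2 / 2)), lt_min hl (lt_min (by linarith) (by linarith)),
      min_le_left _ _, fun s hs => ?_⟩
    rcases hs with hs | hs
    · apply hb1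
      rw [Metric.mem_ball, Real.dist_eq]
      have : min l (min (ε1 / 2) (ε2 / 2)) ≤ ε1 / 2 := (min_le_right _ _).trans (min_le_left _ _)
      linarith
    · apply hb2
      rw [Metric.mem_ball, Real.dist_eq]
      have : min l (min (ε1 / 2) (ε2 / 2)) ≤ ε2 / 2 := (min_le_right _ _).trans (min_le_right _ _)
      linarith
  have hleft : ∀ s, sm - l' ≤ s → s ≤ sm → rt θ1 (h s) < k1 ∧ k2 < rt θ2 (h s) :=
    fun s a b => hin s (Or.inl (abs_le.2 ⟨by linarith, by linarith⟩))
  have hright : ∀ s, sp ≤ s → s ≤ sp + l' → rt θ1 (h s) < k1 ∧ k2 < rt θ2 (h s) :=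
    fun s a b => hin s (Or.inr (abs_le.2 ⟨by linarith, by linarith⟩))
  have hstrip : ∀ s s' : ℝ, sm - l ≤ s → s < s' → s' ≤ sp + l → (s, s') ∈ Strip :=
    fun s s' a b c => ⟨b, by show s' < s + 1; linarith⟩
  -- the bad parameters
  set B : Set ℝ := Icc sm sp ∩ {s | ¬ (rt θ1 (h s) < k1 ∧ k2 < rt θ2 (h s))} with hB
  have hBc : IsCompact B := by
    apply isCompact_Icc.inter_right
    have ho : IsOpen {s : ℝ | rt θ1 (h s) < k1 ∧ k2 < rt θ2 (h s)} :=
      (isOpen_lt hrc1 continuous_const).inter (isOpen_lt continuous_const hrc2)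
    exact ho.isClosed_compl
  rcases B.eq_empty_or_nonempty with hBe | hBne
  · -- case (i)
    have hmid : ∀ s, sm ≤ s → s ≤ sp → rt θ1 (h s) < k1 ∧ k2 < rt θ2 (h s) := by
      intro s a b
      by_contra hcon
      have : s ∈ B := ⟨⟨a, b⟩, hcon⟩
      rw [hBe] at this
      exact this
    have hall : ∀ s, sm - l' ≤ s → s ≤ sp + l' → rt θ1 (h s) ≤ k1 ∧ k2 ≤ rt θ2 (h s) := by
      intro s a b
      rcases le_total s sm with h1 | h1
      · exact ⟨(hleft s a h1).1.le, (hleft s a h1).2.le⟩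
      · rcases le_total s sp with h2 | h2
        · exact ⟨(hmid s h1 h2).1.le, (hmid s h1 h2).2.le⟩
        · exact ⟨(hright s h2 b).1.le, (hright s h2 b).2.le⟩
    refine quad_build hc hne hlen (sm - l') sp sm (sp + l') l' (by linarith) (by linarith) hl'
      (fun s a b => hall s a (by linarith)) (fun s a b => hall s (by linarith) b)
      (fun τ x => sm - τ + x * (sp - sm + τ)) (fun x => sm - l' + cl (2 * x - 1) * (sp - sm + l'))
      (fun x => sm + cl (2 * x) * (sp - sm + l'))
      (by have := continuous_cl; fun_prop) (by have := continuous_cl; fun_prop)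
      (fun τ => by fun_prop) ?_ ?_ ?_ ?_
    · intro τ hτ hτ' x hx
      have e1 := mul_nonneg hx.1 (by linarith : (0 : ℝ) ≤ sp - sm + τ)
      have e2 := mul_le_mul_of_nonneg_right hx.2 (by linarith : (0 : ℝ) ≤ sp - sm + τ)
      refine ⟨?_, ?_, ?_, ?_⟩ <;> linarith
    · intro x hx
      have c1 := cl_mem (2 * x - 1)
      have c2 := cl_mem (2 * x)
      have hnn : (0 : ℝ) ≤ sp - sm + l' := by linarith
      have e1 := mul_nonneg c1.1 hnn
      have e2 := mul_le_mul_of_nonneg_right c1.2 hnn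
      have e3 := mul_nonneg c2.1 hnn
      have e4 := mul_le_mul_of_nonneg_right c2.2 hnn
      refine ⟨by linarith, by linarith, by linarith, by linarith, ?_⟩
      rcases le_total (2 * x) 1 with h1 | h1
      · rw [cl_neg (show 2 * x - 1 ≤ 0 by linarith)]
        linarith
      · rw [cl_big h1]
        linarith
    · intro τ hτ hτ' y hy
      simp only [mul_zero, zero_mul, add_zero, zero_sub]
      rw [cl_neg (show (-1 : ℝ) ≤ 0 by norm_num), cl_neg (le_refl (0 : ℝ))]
      have e : ((1 - y) * (sm - τ) + y * (sm - l' + 0 * (sp - sm + l')),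
          (1 - y) * (sm - τ + τ) + y * (sm + 0 * (sp - sm + l'))) =
          (sm - ((1 - y) * τ + y * l'), sm) := by
        ext <;> ring
      rw [e]
      have hpos : 0 < (1 - y) * τ + y * l' := by
        rcases lt_or_eq_of_le hy.1 with h2 | h2
        · have := mul_pos h2 hl'
          have := mul_nonneg (by linarith [hy.2] : (0 : ℝ) ≤ 1 - y) hτ.le
          linarith
        · rw [← h2]; linarith
      have hle : (1 - y) * τ + y * l' ≤ l' := by
        have := mul_le_mul_of_nonneg_left hτ' (by linarith [hy.2] : (0 : ℝ) ≤ 1 - y)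
        linarith
      exact (Cm _ (by linarith) (by linarith)).2
    · intro τ hτ hτ' y hy
      simp only [mul_one, one_mul]
      rw [show (2 : ℝ) - 1 = 1 by norm_num, cl_big (le_refl (1 : ℝ)),
        cl_big (show (1 : ℝ) ≤ 2 by norm_num)]
      have e : ((1 - y) * (sm - τ + (sp - sm + τ)) + y * (sm - l' + 1 * (sp - sm + l')),
          (1 - y) * (sm - τ + (sp - sm + τ) + τ) + y * (sm + 1 * (sp - sm + l'))) =
          (sp, sp + ((1 - y) * τ + y * l')) := by
        ext <;> ring
      rw [e]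
      have hpos : 0 < (1 - y) * τ + y * l' := by
        rcases lt_or_eq_of_le hy.1 with h2 | h2
        · have := mul_pos h2 hl'
          have := mul_nonneg (by linarith [hy.2] : (0 : ℝ) ≤ 1 - y) hτ.le
          linarith
        · rw [← h2]; linarith
      have hle : (1 - y) * τ + y * l' ≤ l' := by
        have := mul_le_mul_of_nonneg_left hτ' (by linarith [hy.2] : (0 : ℝ) ≤ 1 - y)
        linarith
      exact (Rp _ (by linarith) (by linarith)).1
  · -- the first and the last bad parameter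
    obtain ⟨e1, he1, he1'⟩ := hBc.exists_isLeast hBne
    obtain ⟨e2, he2, he2'⟩ := hBc.exists_isGreatest hBne
    have h12 : e1 ≤ e2 := he1' he2
    have hsm1 : sm < e1 := by
      rcases lt_or_eq_of_le he1.1.1 with h2 | h2
      · exact h2
      · exfalso
        rw [← h2] at he1
        exact he1.2 ⟨r1, r3⟩
    have hsp2 : e2 < sp := by
      rcases lt_or_eq_of_le he2.1.2 with h2 | h2
      · exact h2
      · exfalso
        rw [h2] at he2
        exact he2.2 ⟨r2, r4⟩
    have hbef : ∀ s, sm ≤ s → s < e1 → rt θ1 (h s) < k1 ∧ k2 < rt θ2 (h s) := by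
      intro s a b
      by_contra hcon
      have := he1' (⟨⟨a, by linarith [he1.1.2]⟩, hcon⟩ : s ∈ B)
      linarith
    have haft : ∀ s, e2 < s → s ≤ sp → rt θ1 (h s) < k1 ∧ k2 < rt θ2 (h s) := by
      intro s a b
      by_contra hcon
      have := he2' (⟨⟨by linarith [he2.1.1], b⟩, hcon⟩ : s ∈ B)
      linarith
    have f1 : rt θ1 (h e1) ≤ k1 := by
      by_contra hcon
      push Not at hcon
      obtain ⟨s, hs1, hs2⟩ := intermediate_value_Icc hsm1.le hrc1.continuousOn
        (⟨r1.le, hcon.le⟩ : k1 ∈ Icc (rt θ1 (h sm)) (rt θ1 (h e1)))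
      rcases lt_or_eq_of_le hs1.2 with h2 | h2
      · have := (hbef s hs1.1 h2).1
        simp only at hs2
        linarith
      · rw [h2] at hs2
        simp only at hs2
        linarith
    have f2 : k2 ≤ rt θ2 (h e1) := by
      by_contra hcon
      push Not at hcon
      obtain ⟨s, hs1, hs2⟩ := intermediate_value_Icc' hsm1.le hrc2.continuousOn
        (⟨hcon.le, r3.le⟩ : k2 ∈ Icc (rt θ2 (h e1)) (rt θ2 (h sm)))
      rcases lt_or_eq_of_le hs1.2 with h2 | h2
      · have := (hbef s hs1.1 h2).2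
        simp only at hs2
        linarith
      · rw [h2] at hs2
        simp only at hs2
        linarith
    have g1 : rt θ1 (h e2) ≤ k1 := by
      by_contra hcon
      push Not at hcon
      obtain ⟨s, hs1, hs2⟩ := intermediate_value_Icc' hsp2.le hrc1.continuousOn
        (⟨r2.le, hcon.le⟩ : k1 ∈ Icc (rt θ1 (h sp)) (rt θ1 (h e2)))
      rcases lt_or_eq_of_le hs1.1 with h2 | h2
      · have := (haft s h2 hs1.2).1
        simp only at hs2
        linarith
      · rw [← h2] at hs2
        simp only at hs2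
        linarith
    have g2 : k2 ≤ rt θ2 (h e2) := by
      by_contra hcon
      push Not at hcon
      obtain ⟨s, hs1, hs2⟩ := intermediate_value_Icc hsp2.le hrc2.continuousOn
        (⟨hcon.le, r4.le⟩ : k2 ∈ Icc (rt θ2 (h e2)) (rt θ2 (h sp)))
      rcases lt_or_eq_of_le hs1.1 with h2 | h2
      · have := (haft s h2 hs1.2).2
        simp only at hs2
        linarith
      · rw [← h2] at hs2
        simp only at hs2
        linarith
    have hbef' : ∀ s, sm - l' ≤ s → s ≤ e1 → rt θ1 (h s) ≤ k1 ∧ k2 ≤ rt θ2 (h s) := by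
      intro s a b
      rcases le_total s sm with h1 | h1
      · exact ⟨(hleft s a h1).1.le, (hleft s a h1).2.le⟩
      · rcases lt_or_eq_of_le b with h2 | h2
        · exact ⟨(hbef s h1 h2).1.le, (hbef s h1 h2).2.le⟩
        · rw [h2]; exact ⟨f1, f2⟩
    have haft' : ∀ s, e2 ≤ s → s ≤ sp + l' → rt θ1 (h s) ≤ k1 ∧ k2 ≤ rt θ2 (h s) := by
      intro s a b
      rcases le_total sp s with h1 | h1
      · exact ⟨(hright s h1 b).1.le, (hright s h1 b).2.le⟩
      · rcases lt_or_eq_of_le a with h2 | h2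
        · exact ⟨(haft s h2 h1).1.le, (haft s h2 h1).2.le⟩
        · rw [← h2]; exact ⟨g1, g2⟩
    -- the chords which end at `e`, `rt θ2 (h e) = k2`
    have sideL : ∀ e a : ℝ, sm < e → e ≤ sp → a ≤ sm → sm - l' ≤ a → rt θ2 (h e) = k2 →
        ∀ b : ℝ, sm ≤ b → b < e ∨ b = e → (∀ s, a ≤ s → s < b ∨ (s = b ∧ b < e) →
          k2 ≤ rt θ2 (h s)) → ∀ s, a ≤ s → s < b ∨ (s = b ∧ b < e) →
          θ2 + Real.pi / 2 ≤ θ (s, e) := by
      intro e a h1 h2 h3 h3' h4 b h5 h6 h7 s h8 h9
      have hbe : b ≤ e := by rcases h6 with h | h <;> linarith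
      set S : Set ℝ := {x | a ≤ x ∧ (x < b ∨ (x = b ∧ b < e))} with hS
      have hSe : ∀ x ∈ S, x < e := by
        rintro x ⟨hx1, hx2 | ⟨hx2, hx3⟩⟩
        · linarith
        · linarith
      have hSc : IsPreconnected S := by
        rcases h6 with h | h
        · have : S = Icc a b := by
            ext x
            constructor
            · rintro ⟨hx1, hx2 | ⟨hx2, -⟩⟩
              · exact ⟨hx1, hx2.le⟩
              · exact ⟨hx1, hx2.le⟩
            · rintro ⟨hx1, hx2⟩
              rcases lt_or_eq_of_le hx2 with h' | h'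
              · exact ⟨hx1, Or.inl h'⟩
              · exact ⟨hx1, Or.inr ⟨h', h⟩⟩
          rw [this]
          exact isPreconnected_Icc
        · have : S = Ico a b := by
            ext x
            constructor
            · rintro ⟨hx1, hx2 | ⟨-, hx3⟩⟩
              · exact ⟨hx1, hx2⟩
              · exfalso; linarith
            · rintro ⟨hx1, hx2⟩
              exact ⟨hx1, Or.inl hx2⟩
          rw [this]
          exact isPreconnected_Ico
      have hSst : ∀ x ∈ S, (x, e) ∈ Strip := fun x hx =>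
        hstrip x e (by linarith [hx.1]) (hSe x hx) (by linarith)
      have hcos : ∀ x ∈ S, Real.cos (θ (x, e) - θ2) ≤ 0 := by
        intro x hx
        refine cos_nonpos_of_rt (hP (x, e) (hSst x hx))
          (sub_ne_zero.2 (hne (x, e) (hSst x hx))) ?_
        show rt θ2 (h e - h x) ≤ 0
        rw [rt_sub, h4]
        linarith [h7 x hx.1 hx.2]
      have hsmS : sm ∈ S := by
        refine ⟨h3, ?_⟩
        rcases lt_or_eq_of_le h5 with h | h
        · exact Or.inl h
        · exact Or.inr ⟨h, by linarith⟩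
      have hcont : ContinuousOn (fun x => θ (x, e) - (θ2 + Real.pi / 2)) S := by
        refine ContinuousOn.sub ?_ continuousOn_const
        exact hθc.comp (by fun_prop) (fun x hx => hSst x hx)
      have hst := stay_nn hSc (θ := fun x => θ (x, e) - (θ2 + Real.pi / 2)) hcont
        (fun x hx => by
          have e3 : θ (x, e) - (θ2 + Real.pi / 2) = (θ (x, e) - θ2) - Real.pi / 2 := by ring
          rw [e3, Real.sin_sub_pi_div_two]
          linarith [hcos x hx]) hsmS (by
          have q := Rm e h1 (by linarith)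
          have q2 := hcos sm hsmS
          constructor
          · by_contra hcon
            push Not at hcon
            have := Real.cos_pos_of_mem_Ioo (x := θ (sm, e) - θ2)
              ⟨by linarith [q.1], by linarith⟩
            linarith
          · linarith [q.2]) s ⟨h8, h9⟩
      linarith [hst.1]
    -- the chords which start at `e`, `rt θ1 (h e) = k1`
    have sideR : ∀ e a : ℝ, sm ≤ e → e < sp → sp ≤ a → a ≤ sp + l' → rt θ1 (h e) = k1 →
        ∀ b : ℝ, b ≤ sp → e < b ∨ b = e → (∀ s, s ≤ a → b < s ∨ (s = b ∧ e < b) →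
          rt θ1 (h s) ≤ k1) → ∀ s, s ≤ a → b < s ∨ (s = b ∧ e < b) →
          θ (e, s) ≤ θ1 - Real.pi / 2 := by
      intro e a h1 h2 h3 h3' h4 b h5 h6 h7 s h8 h9
      have hbe : e ≤ b := by rcases h6 with h | h <;> linarith
      set S : Set ℝ := {x | x ≤ a ∧ (b < x ∨ (x = b ∧ e < b))} with hS
      have hSe : ∀ x ∈ S, e < x := by
        rintro x ⟨hx1, hx2 | ⟨hx2, hx3⟩⟩
        · linarith
        · linarith
      have hSc : IsPreconnected S := by
        rcases h6 with h | h
        · have : S = Icc b a := by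
            ext x
            constructor
            · rintro ⟨hx1, hx2 | ⟨hx2, -⟩⟩
              · exact ⟨hx2.le, hx1⟩
              · exact ⟨hx2.ge, hx1⟩
            · rintro ⟨hx1, hx2⟩
              rcases lt_or_eq_of_le hx1 with h' | h'
              · exact ⟨hx2, Or.inl h'⟩
              · exact ⟨hx2, Or.inr ⟨h'.symm, h⟩⟩
          rw [this]
          exact isPreconnected_Icc
        · have : S = Ioc b a := by
            ext x
            constructor
            · rintro ⟨hx1, hx2 | ⟨-, hx3⟩⟩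
              · exact ⟨hx2, hx1⟩
              · exfalso; linarith
            · rintro ⟨hx1, hx2⟩
              exact ⟨hx2, Or.inl hx1⟩
          rw [this]
          exact isPreconnected_Ioc
      have hSst : ∀ x ∈ S, (e, x) ∈ Strip := fun x hx =>
        hstrip e x (by linarith) (hSe x hx) (by linarith [hx.1])
      have hcos : ∀ x ∈ S, Real.cos (θ (e, x) - θ1) ≤ 0 := by
        intro x hx
        refine cos_nonpos_of_rt (hP (e, x) (hSst x hx))
          (sub_ne_zero.2 (hne (e, x) (hSst x hx))) ?_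
        show rt θ1 (h x - h e) ≤ 0
        rw [rt_sub, h4]
        linarith [h7 x hx.1 hx.2]
      have hspS : sp ∈ S := by
        refine ⟨h3, ?_⟩
        rcases lt_or_eq_of_le h5 with h | h
        · exact Or.inl h
        · exact Or.inr ⟨h.symm, by linarith⟩
      have hcont : ContinuousOn (fun x => θ (e, x) - (θ1 - 3 * Real.pi / 2)) S := by
        refine ContinuousOn.sub ?_ continuousOn_const
        exact hθc.comp (by fun_prop) (fun x hx => hSst x hx)
      have hst := stay_nn hSc (θ := fun x => θ (e, x) - (θ1 - 3 * Real.pi / 2)) hcont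
        (fun x hx => by
          have e3 : θ (e, x) - (θ1 - 3 * Real.pi / 2) =
              ((θ (e, x) - θ1) - Real.pi / 2) + 2 * Real.pi := by ring
          rw [e3, Real.sin_add_two_pi, Real.sin_sub_pi_div_two]
          linarith [hcos x hx]) hspS (by
          have q := Cp e (by linarith) h2
          have q2 := hcos sp hspS
          constructor
          · linarith [q.1]
          · by_contra hcon
            push Not at hcon
            have := Real.cos_pos_of_mem_Ioo (x := θ (e, sp) - θ1)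
              ⟨by linarith, by linarith [q.2]⟩
            linarith) s ⟨h8, h9⟩
      linarith [hst.2]
    by_cases hc2 : rt θ2 (h e1) = k2
    · -- case (ii)
      have key : ∀ s, sm - l' ≤ s → s < e1 → θ1 ≤ θ (s, e1) := by
        intro s a b
        have := sideL e1 (sm - l') hsm1 he1.1.2 (by linarith) le_rfl hc2 e1 hsm1.le (Or.inr rfl)
          (fun x hx1 hx2 => by
            rcases hx2 with hx2 | ⟨-, hx2⟩
            · exact (hbef' x hx1 hx2.le).2
            · exact absurd hx2 (lt_irrefl _)) s a (Or.inl b)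
        linarith
      refine quad_build hc hne hlen (sm - l') e1 sm e1 (min l' (e1 - sm)) (by linarith)
        (by linarith [he1.1.2]) (lt_min hl' (by linarith))
        (fun s a b => hbef' s a b) (fun s a b => hbef' s (by linarith) b)
        (fun τ x => sm - τ + x * (e1 - sm)) (fun x => sm - l')
        (fun x => sm + x * (e1 - sm)) (by fun_prop) (by fun_prop) (fun τ => by fun_prop) ?_ ?_ ?_ ?_
      · intro τ hτ hτ' x hx
        have e1' := mul_nonneg hx.1 (by linarith : (0 : ℝ) ≤ e1 - sm)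
        have e2' := mul_le_mul_of_nonneg_right hx.2 (by linarith : (0 : ℝ) ≤ e1 - sm)
        have e3' := hτ'.trans (min_le_left _ _)
        refine ⟨?_, ?_, ?_, ?_⟩ <;> linarith
      · intro x hx
        have e1' := mul_nonneg hx.1 (by linarith : (0 : ℝ) ≤ e1 - sm)
        have e2' := mul_le_mul_of_nonneg_right hx.2 (by linarith : (0 : ℝ) ≤ e1 - sm)
        refine ⟨?_, ?_, ?_, ?_, ?_⟩ <;> linarith
      · intro τ hτ hτ' y hy
        have e3' := hτ'.trans (min_le_left _ _)
        have e : ((1 - y) * (sm - τ + 0 * (e1 - sm)) + y * (sm - l'),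
            (1 - y) * (sm - τ + 0 * (e1 - sm) + τ) + y * (sm + 0 * (e1 - sm))) =
            (sm - ((1 - y) * τ + y * l'), sm) := by
          ext <;> ring
        rw [e]
        have hpos : 0 < (1 - y) * τ + y * l' := by
          rcases lt_or_eq_of_le hy.1 with h2 | h2
          · have := mul_pos h2 hl'
            have := mul_nonneg (by linarith [hy.2] : (0 : ℝ) ≤ 1 - y) hτ.le
            linarith
          · rw [← h2]; linarith
        have hle : (1 - y) * τ + y * l' ≤ l' := by
          have := mul_le_mul_of_nonneg_left e3' (by linarith [hy.2] : (0 : ℝ) ≤ 1 - y)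
          linarith
        exact (Cm _ (by linarith) (by linarith)).2
      · intro τ hτ hτ' y hy
        have e : ((1 - y) * (sm - τ + 1 * (e1 - sm)) + y * (sm - l'),
            (1 - y) * (sm - τ + 1 * (e1 - sm) + τ) + y * (sm + 1 * (e1 - sm))) =
            ((1 - y) * (e1 - τ) + y * (sm - l'), e1) := by
          ext <;> ring
        rw [e]
        have hτ2 := hτ'.trans (min_le_right _ _)
        have hτ3 := hτ'.trans (min_le_left _ _)
        have hy1 : (0 : ℝ) ≤ 1 - y := by linarith [hy.2]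
        apply key
        · nlinarith [mul_nonneg hy1 (by linarith : (0 : ℝ) ≤ e1 - τ - (sm - l'))]
        · rcases lt_or_eq_of_le hy.1 with h2 | h2
          · nlinarith [mul_pos h2 (by linarith : (0 : ℝ) < e1 - (sm - l')), mul_nonneg hy1 hτ.le]
          · rw [← h2]; linarith
    · by_cases hc1 : rt θ1 (h e2) = k1
      · -- case (iii)
        have key : ∀ s, e2 < s → s ≤ sp + l' → θ (e2, s) ≤ θ2 := by
          intro s a b
          have := sideR e2 (sp + l') he2.1.1 hsp2 (by linarith) le_rfl hc1 e2 hsp2.le (Or.inr rfl)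
            (fun x hx1 hx2 => by
              rcases hx2 with hx2 | ⟨-, hx2⟩
              · exact (haft' x hx2.le hx1).1
              · exact absurd hx2 (lt_irrefl _)) s b (Or.inl a)
          linarith
        refine quad_build hc hne hlen e2 sp e2 (sp + l') l' (by linarith [he2.1.1])
          (by linarith) hl'
          (fun s a b => haft' s a (by linarith)) (fun s a b => haft' s a b)
          (fun τ x => e2 + x * (sp - e2)) (fun x => e2 + x * (sp - e2))
          (fun x => sp + l') (by fun_prop) (by fun_prop) (fun τ => by fun_prop) ?_ ?_ ?_ ?_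
        · intro τ hτ hτ' x hx
          have e1' := mul_nonneg hx.1 (by linarith : (0 : ℝ) ≤ sp - e2)
          have e2' := mul_le_mul_of_nonneg_right hx.2 (by linarith : (0 : ℝ) ≤ sp - e2)
          refine ⟨?_, ?_, ?_, ?_⟩ <;> linarith
        · intro x hx
          have e1' := mul_nonneg hx.1 (by linarith : (0 : ℝ) ≤ sp - e2)
          have e2' := mul_le_mul_of_nonneg_right hx.2 (by linarith : (0 : ℝ) ≤ sp - e2)
          refine ⟨?_, ?_, ?_, ?_, ?_⟩ <;> linarith
        · intro τ hτ hτ' y hy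
          have e : ((1 - y) * (e2 + 0 * (sp - e2)) + y * (e2 + 0 * (sp - e2)),
              (1 - y) * (e2 + 0 * (sp - e2) + τ) + y * (sp + l')) =
              (e2, (1 - y) * (e2 + τ) + y * (sp + l')) := by
            ext <;> ring
          rw [e]
          have hy1 : (0 : ℝ) ≤ 1 - y := by linarith [hy.2]
          apply key
          · rcases lt_or_eq_of_le hy.1 with h2 | h2
            · nlinarith [mul_pos h2 (by linarith : (0 : ℝ) < sp + l' - e2), mul_nonneg hy1 hτ.le]
            · rw [← h2]; linarith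
          · nlinarith [mul_nonneg hy1 (by linarith : (0 : ℝ) ≤ sp + l' - (e2 + τ))]
        · intro τ hτ hτ' y hy
          have e : ((1 - y) * (e2 + 1 * (sp - e2)) + y * (e2 + 1 * (sp - e2)),
              (1 - y) * (e2 + 1 * (sp - e2) + τ) + y * (sp + l')) =
              (sp, sp + ((1 - y) * τ + y * l')) := by
            ext <;> ring
          rw [e]
          have hpos : 0 < (1 - y) * τ + y * l' := by
            rcases lt_or_eq_of_le hy.1 with h2 | h2
            · have := mul_pos h2 hl'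
              have := mul_nonneg (by linarith [hy.2] : (0 : ℝ) ≤ 1 - y) hτ.le
              linarith
            · rw [← h2]; linarith
          have hle : (1 - y) * τ + y * l' ≤ l' := by
            have := mul_le_mul_of_nonneg_left hτ' (by linarith [hy.2] : (0 : ℝ) ≤ 1 - y)
            linarith
          exact (Rp _ (by linarith) (by linarith)).1
      · -- case (iv)
        exfalso
        have hk1 : rt θ1 (h e1) = k1 := by
          by_contra hcon
          exact he1.2 ⟨lt_of_le_of_ne f1 hcon, lt_of_le_of_ne f2 (Ne.symm hc2)⟩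
        have hk2 : rt θ2 (h e2) = k2 := by
          by_contra hcon
          exact he2.2 ⟨lt_of_le_of_ne g1 hc1, lt_of_le_of_ne g2 (Ne.symm hcon)⟩
        have hlt : e1 < e2 := by
          rcases lt_or_eq_of_le h12 with h2 | h2
          · exact h2
          · exfalso
            rw [← h2] at hk2
            exact hc2 hk2
        have a1 := sideL e2 sm (by linarith) hsp2.le le_rfl (by linarith) hk2 e1 hsm1.le
          (Or.inl hlt) (fun x hx1 hx2 => by
            rcases hx2 with hx2 | ⟨hx2, -⟩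
            · exact (hbef' x (by linarith) hx2.le).2
            · exact (hbef' x (by linarith) hx2.le).2) e1 hsm1.le (Or.inr ⟨rfl, hlt⟩)
        have a2 := sideR e1 sp hsm1.le (by linarith) le_rfl (by linarith) hk1 e2 hsp2.le
          (Or.inl hlt) (fun x hx1 hx2 => by
            rcases hx2 with hx2 | ⟨hx2, -⟩
            · exact (haft' x hx2.le (by linarith)).1
            · exact (haft' x hx2.ge (by linarith)).1) e2 hsp2.le (Or.inr ⟨rfl, hlt⟩)
        linarith

end Pool.MP_7ec17a_gt.D
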