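import Pool.Agent.Work.MP_7ec17a_gt_D.Interface

/-!
# MP_7ec17a_gt, block TRAP1 (helper45)
-/

set_option autoImplicit false

open Set

namespace Pool.MP_7ec17a_gt.D

lemma trap1_up_sub (θ : ℝ) (a b : ℂ) : up θ (a - b) = up θ a - up θ b := by
  unfold up
  simp only [Complex.sub_im, Complex.sub_re]
  ring

lemma trap1_fract {f : ℝ → ℂ} (hf : Crv f) (x : ℝ) : f (Int.fract x) = f x := by
  have hp : Function.Periodic f 1 := hf.per
  have h := (hp.int_mul ⌊x⌋) (Int.fract x)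
  rw [mul_one] at h
  rw [← h]
  congr 1
  rw [add_comm]
  exact Int.floor_add_fract x

lemma trap1_fract_mem (x : ℝ) : Int.fract x ∈ Icc (0 : ℝ) 1 :=
  ⟨Int.fract_nonneg x, (Int.fract_lt_one x).le⟩

lemma trap1_up_le (θ : ℝ) (w : ℂ) : up θ w ≤ ‖w‖ := by
  have h1 : up θ w ^ 2 ≤ ‖w‖ ^ 2 := by
    have h2 : ‖w‖ ^ 2 = w.re ^ 2 + w.im ^ 2 := by
      rw [← Complex.normSq_eq_norm_sq, Complex.normSq_apply]
      ring
    rw [h2]
    unfold up
    nlinarith [Real.sin_sq_add_cos_sq θ, sq_nonneg (w.re * Real.cos θ + w.im * Real.sin θ)]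
  exact le_trans (le_abs_self _) (abs_le_of_sq_le_sq h1 (norm_nonneg w))

theorem stmt_TRAP1 : Stmt_TRAP1 := by
  intro f s0 t0 D ϑ hf hD hϑ0 hϑ1 hre him hdist hlt
  have hcont := hf.cont
  -- the maximum of the width
  obtain ⟨q, hq, hqmax⟩ := (isCompact_Icc.prod isCompact_Icc :
    IsCompact (Icc (0 : ℝ) 1 ×ˢ Icc (0 : ℝ) 1)).exists_isMaxOn
    ⟨(0, 0), by constructor <;> simp⟩
    (f := fun p : ℝ × ℝ => -(f p.2 - f p.1).re) (by fun_prop)
  set σ : ℝ := -(f q.2 - f q.1).re with hσ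
  have hσD : σ < D := lt_of_le_of_lt (neg_le_abs _) (hlt q.1 q.2)
  have hσmax : ∀ s ∈ Icc (0 : ℝ) 1, ∀ t ∈ Icc (0 : ℝ) 1, -(f t - f s).re ≤ σ := by
    intro s hs t ht
    exact hqmax (show ((s, t) : ℝ × ℝ) ∈ Icc (0 : ℝ) 1 ×ˢ Icc (0 : ℝ) 1 from ⟨hs, ht⟩)
  have hgap : 0 < Real.pi / 2 - ϑ := by linarith
  set c : ℝ := (D - σ) / (2 * (Real.pi / 2 - ϑ)) with hc
  have hcpos : 0 < c := by
    rw [hc]
    exact div_pos (by linarith) (by linarith)
  have hcgap : c * (Real.pi / 2 - ϑ) = (D - σ) / 2 := by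
    rw [hc]
    have h2 : (2 * (Real.pi / 2 - ϑ)) ≠ 0 := by
      have := hgap
      positivity
    rw [div_mul_eq_mul_div, div_eq_div_iff h2 two_ne_zero]
    ring
  -- the maximum of G
  obtain ⟨p, hp, hpmax⟩ := (isCompact_Icc.prod (isCompact_Icc.prod isCompact_Icc) :
    IsCompact (Icc (0 : ℝ) 1 ×ˢ (Icc (0 : ℝ) 1 ×ˢ Icc ϑ (Real.pi / 2)))).exists_isMaxOn
    ⟨(0, (0, ϑ)), by
      refine ⟨by simp, by simp, ?_⟩
      exact ⟨le_rfl, hϑ1.le⟩⟩
    (f := fun p : ℝ × (ℝ × ℝ) => up p.2.2 (f p.2.1 - f p.1) + c * p.2.2)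
    (by unfold up; fun_prop)
  obtain ⟨s, t, θ1⟩ := p
  obtain ⟨hs, ht, hθ1⟩ := hp
  simp only at hs ht hθ1
  have hmax : ∀ s' ∈ Icc (0 : ℝ) 1, ∀ t' ∈ Icc (0 : ℝ) 1, ∀ θ' ∈ Icc ϑ (Real.pi / 2),
      up θ' (f t' - f s') + c * θ' ≤ up θ1 (f t - f s) + c * θ1 := by
    intro s' hs' t' ht' θ' hθ'
    exact hpmax (show ((s', (t', θ')) : ℝ × (ℝ × ℝ)) ∈
      Icc (0 : ℝ) 1 ×ˢ (Icc (0 : ℝ) 1 ×ˢ Icc ϑ (Real.pi / 2)) from ⟨hs', ht', hθ'⟩)
  have hw0 : ∀ θ' : ℝ, up θ' (f (Int.fract t0) - f (Int.fract s0)) = D * Real.cos (θ' - ϑ) := by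
    intro θ'
    rw [trap1_fract hf, trap1_fract hf]
    unfold up
    rw [hre, him, Real.cos_sub]
    ring
  have hmax0 : ∀ θ' ∈ Icc ϑ (Real.pi / 2),
      D * Real.cos (θ' - ϑ) + c * θ' ≤ up θ1 (f t - f s) + c * θ1 := by
    intro θ' hθ'
    rw [← hw0 θ']
    exact hmax _ (trap1_fract_mem _) _ (trap1_fract_mem _) θ' hθ'
  have hne2 : θ1 ≠ Real.pi / 2 := by
    intro h
    have h1 := hmax0 ϑ ⟨le_rfl, hϑ1.le⟩
    rw [sub_self, Real.cos_zero, mul_one, h] at h1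
    have h2 : up (Real.pi / 2) (f t - f s) = -(f t - f s).re := by
      unfold up
      rw [Real.cos_pi_div_two, Real.sin_pi_div_two]
      ring
    rw [h2] at h1
    have h3 := hσmax s hs t ht
    have h4 : c * (Real.pi / 2) - c * ϑ = (D - σ) / 2 := by rw [← mul_sub]; exact hcgap
    linarith
  have hne1 : θ1 ≠ ϑ := by
    intro h
    set ε : ℝ := min (c / D) ((Real.pi / 2 - ϑ) / 2) with hε
    have hε0 : 0 < ε := lt_min (div_pos hcpos hD) (by linarith)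
    have hε1 : ε ≤ c / D := min_le_left _ _
    have hε2 : ε ≤ (Real.pi / 2 - ϑ) / 2 := min_le_right _ _
    have h1 := hmax0 (ϑ + ε) ⟨by linarith, by linarith⟩
    rw [add_sub_cancel_left, h] at h1
    have h2 : up ϑ (f t - f s) ≤ D := le_trans (trap1_up_le _ _) (hdist s t)
    have h3 : 1 - ε ^ 2 / 2 ≤ Real.cos ε := Real.one_sub_sq_div_two_le_cos
    have h4 : D * (1 - ε ^ 2 / 2) ≤ D * Real.cos ε := mul_le_mul_of_nonneg_left h3 hD.le
    have h5 : D * ε ≤ c := by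
      have := mul_le_mul_of_nonneg_left hε1 hD.le
      rwa [mul_div_cancel₀ c hD.ne'] at this
    have h6 : D * ε * ε ≤ c * ε := mul_le_mul_of_nonneg_right h5 hε0.le
    have h7 : 0 < c * ε := mul_pos hcpos hε0
    nlinarith
  have hlt1 : ϑ < θ1 := lt_of_le_of_ne hθ1.1 (Ne.symm hne1)
  have hlt2 : θ1 < Real.pi / 2 := lt_of_le_of_ne hθ1.2 hne2
  -- the derivative vanishes
  have hder : HasDerivAt (fun θ' : ℝ => up θ' (f t - f s) + c * θ')
      (-(rt θ1 (f t - f s)) + c) θ1 := by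
    unfold up rt
    have h1 := (((Real.hasDerivAt_cos θ1).const_mul ((f t - f s).im)).sub
      ((Real.hasDerivAt_sin θ1).const_mul ((f t - f s).re))).add
      ((hasDerivAt_id θ1).const_mul c)
    have h2 : (f t - f s).im * -Real.sin θ1 - (f t - f s).re * Real.cos θ1 + c * 1
        = -((f t - f s).re * Real.cos θ1 + (f t - f s).im * Real.sin θ1) + c := by ring
    rw [h2] at h1
    exact h1
  have hloc : IsLocalMax (fun θ' : ℝ => up θ' (f t - f s) + c * θ') θ1 := by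
    filter_upwards [Ioo_mem_nhds hlt1 hlt2] with θ' hθ'
    exact hmax s hs t ht θ' ⟨hθ'.1.le, hθ'.2.le⟩
  have hzero := hloc.hasDerivAt_eq_zero hder
  refine ⟨θ1, hlt1, hlt2, s, t, ?_, ?_, ?_⟩
  · intro x
    have h1 := hmax (Int.fract x) (trap1_fract_mem x) t ht θ1 hθ1
    rw [trap1_fract hf] at h1
    rw [trap1_up_sub] at h1 ⊢
    rw [trap1_up_sub] at h1
    linarith
  · intro x
    have h1 := hmax s hs (Int.fract x) (trap1_fract_mem x) θ1 hθ1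
    rw [trap1_fract hf] at h1
    rw [trap1_up_sub] at h1 ⊢
    rw [trap1_up_sub] at h1
    linarith
  · linarith

end Pool.MP_7ec17a_gt.D
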