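import Pool.Agent.Work.MP_7ec17a_gt_D.Interface

/-! # MP_7ec17a_gt, Theorem D, block TRAP2 (helper50): from TRAP1 by a reflection -/

set_option autoImplicit false

open Set

namespace Pool.MP_7ec17a_gt.D

open Pool.MP_7ec17a_gt.T Pool.MP_7ec17a_gt.M

/-- the reflection -/
noncomputable def trap2_g (f : ℝ → ℂ) (x : ℝ) : ℂ := ⟨-(f x).im, -(f x).re⟩

lemma trap2_up (f : ℝ → ℂ) (θ x s : ℝ) :
    up (Real.pi / 2 - θ) (trap2_g f x - trap2_g f s) = up θ (f x - f s) := by
  simp only [up, trap2_g, Complex.sub_re, Complex.sub_im, Real.cos_pi_div_two_sub,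
    Real.sin_pi_div_two_sub]
  ring

lemma trap2_rt (f : ℝ → ℂ) (θ x s : ℝ) :
    rt (Real.pi / 2 - θ) (trap2_g f x - trap2_g f s) = -rt θ (f x - f s) := by
  simp only [rt, trap2_g, Complex.sub_re, Complex.sub_im, Real.cos_pi_div_two_sub,
    Real.sin_pi_div_two_sub]
  ring

lemma trap2_crv {f : ℝ → ℂ} (h : Crv f) : Crv (trap2_g f) where
  cont := by
    have h1 := Complex.continuous_im.comp h.cont
    have h2 := Complex.continuous_re.comp h.cont
    have h3 : Continuous fun x => ((-(f x).im : ℝ) : ℂ) + ((-(f x).re : ℝ) : ℂ) * Complex.I :=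
      (Complex.continuous_ofReal.comp h1.neg).add
        ((Complex.continuous_ofReal.comp h2.neg).mul continuous_const)
    refine h3.congr fun x => ?_
    apply Complex.ext <;> simp [trap2_g]
  per t := by simp only [trap2_g, h.per]
  inj s t hst := by
    refine h.inj s t ?_
    have h1 := congrArg Complex.re hst
    have h2 := congrArg Complex.im hst
    simp only [trap2_g, neg_inj] at h1 h2
    exact Complex.ext h2 h1

theorem stmt_TRAP2 (h : Stmt_TRAP1) : Stmt_TRAP2 := by
  intro f s0 t0 D ϑ hf hD h0 h1 hre him hn hi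
  obtain ⟨θ1, h2, h3, s, t, h4, h5, h6⟩ := h (trap2_g f) s0 t0 D (Real.pi / 2 - ϑ)
    (trap2_crv hf) hD (by linarith) (by linarith)
    (by
      rw [Real.sin_pi_div_two_sub, ← him]
      simp only [trap2_g, Complex.sub_re, Complex.sub_im]
      ring)
    (by
      rw [Real.cos_pi_div_two_sub]
      simp only [trap2_g, Complex.sub_im]
      rw [Complex.sub_re] at hre
      linarith)
    (fun s t => by
      have h7 : ‖trap2_g f t - trap2_g f s‖ = ‖f t - f s‖ := by
        rw [Complex.norm_def, Complex.norm_def, Complex.normSq_apply, Complex.normSq_apply]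
        simp only [trap2_g, Complex.sub_re, Complex.sub_im]
        ring_nf
      rw [h7]
      exact hn s t)
    (fun s t => by
      have h7 := hi s t
      have h8 : (trap2_g f t - trap2_g f s).re = -(f t - f s).im := by
        simp only [trap2_g, Complex.sub_re, Complex.sub_im]
        ring
      rw [h8, abs_neg]
      exact h7)
  have h9 : θ1 = Real.pi / 2 - (Real.pi / 2 - θ1) := by ring
  refine ⟨Real.pi / 2 - θ1, by linarith, by linarith, s, t, fun x => ?_, fun x => ?_, ?_⟩
  · have := h4 x
    rw [h9, trap2_up] at this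
    exact this
  · have := h5 x
    rw [h9, trap2_up] at this
    exact this
  · rw [h9, trap2_rt] at h6
    linarith

end Pool.MP_7ec17a_gt.D
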