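import Pool.Agent.Work.MP_7ec17a_gt_D.MAIN

/-!
# The trapping directions, general form
-/

set_option autoImplicit false

open Set

namespace Pool.MP_7ec17a_gt.D

open Pool.MP_7ec17a_gt.T Pool.MP_7ec17a_gt.M

lemma up_le_norm (θ : ℝ) (z : ℂ) : up θ z ≤ ‖z‖ := by
  have hP : Pol z z.arg := ⟨(Complex.norm_mul_cos_arg z).symm, (Complex.norm_mul_sin_arg z).symm⟩
  rw [up_pol hP]
  have := mul_le_mul_of_nonneg_left (Real.sin_le_one (z.arg - θ)) (norm_nonneg z)
  linarith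

/-- A trapping direction on the left of a diametral direction. -/
theorem trap_left {f : ℝ → ℂ} {s0 t0 D ϑ θe : ℝ} (hf : Crv f) (hD : 0 < D) (hϑ : ϑ < θe)
    (hre : (f t0 - f s0).re = -(D * Real.sin ϑ)) (him : (f t0 - f s0).im = D * Real.cos ϑ)
    (hdiam : ∀ s t, ‖f t - f s‖ ≤ D) (hw : ∀ s t, up θe (f t - f s) < D) :
    ∃ θ1 : ℝ, ϑ < θ1 ∧ θ1 < θe ∧ ∃ s t : ℝ, (∀ x, 0 ≤ up θ1 (f x - f s)) ∧
      (∀ x, 0 ≤ up θ1 (f t - f x)) ∧ 0 < rt θ1 (f t - f s) := by
  have hfc := hf.cont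
  have hfr : ∀ t, f t = f (Int.fract t) := fun t => by
    have h := crv_int hf (Int.fract t) ⌊t⌋
    rw [Int.fract_add_floor] at h
    exact h
  have hfm : ∀ t : ℝ, Int.fract t ∈ Icc (0 : ℝ) 1 := fun t =>
    ⟨Int.fract_nonneg t, (Int.fract_lt_one t).le⟩
  have i0 : (0 : ℝ) ∈ Icc (0 : ℝ) 1 := ⟨le_rfl, zero_le_one⟩
  -- the width in the direction `θe`
  obtain ⟨z1, hz1, hz1'⟩ := (isCompact_Icc.prod isCompact_Icc).exists_isMaxOn
    (s := Icc (0 : ℝ) 1 ×ˢ Icc (0 : ℝ) 1) (f := fun z : ℝ × ℝ => up θe (f z.2 - f z.1))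
    ⟨(0, 0), i0, i0⟩ (by
      have := continuous_up θe
      fun_prop)
  set σ := up θe (f z1.2 - f z1.1) with hσ
  have hσD : σ < D := hw _ _
  have hσm : ∀ s ∈ Icc (0 : ℝ) 1, ∀ t ∈ Icc (0 : ℝ) 1, up θe (f t - f s) ≤ σ := fun s hs t ht =>
    hz1' (⟨hs, ht⟩ : (s, t) ∈ Icc (0 : ℝ) 1 ×ˢ Icc (0 : ℝ) 1)
  set c := (D - σ) / (2 * (θe - ϑ)) with hc
  have hc0 : 0 < c := by
    apply div_pos <;> linarith
  have hc1 : c * (θe - ϑ) = (D - σ) / 2 := by
    rw [hc]
    field_simp [show θe - ϑ ≠ 0 by linarith]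
  -- the maximum
  have hGc : Continuous (fun z : (ℝ × ℝ) × ℝ => up z.2 (f z.1.2 - f z.1.1) + c * z.2) := by
    unfold up
    fun_prop
  obtain ⟨z, hz, hmax⟩ := ((isCompact_Icc.prod isCompact_Icc).prod isCompact_Icc).exists_isMaxOn
    (s := (Icc (0 : ℝ) 1 ×ˢ Icc (0 : ℝ) 1) ×ˢ Icc ϑ θe)
    (f := fun z : (ℝ × ℝ) × ℝ => up z.2 (f z.1.2 - f z.1.1) + c * z.2)
    ⟨((0, 0), ϑ), ⟨i0, i0⟩, ⟨le_rfl, hϑ.le⟩⟩ hGc.continuousOn
  obtain ⟨⟨s, t⟩, θ1⟩ := z
  obtain ⟨⟨hs, ht⟩, hθ1⟩ := hz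
  have hG : ∀ s' ∈ Icc (0 : ℝ) 1, ∀ t' ∈ Icc (0 : ℝ) 1, ∀ θ ∈ Icc ϑ θe,
      up θ (f t' - f s') + c * θ ≤ up θ1 (f t - f s) + c * θ1 := fun s' h1 t' h2 θ h3 =>
    hmax (⟨⟨h1, h2⟩, h3⟩ : ((s', t'), θ) ∈ (Icc (0 : ℝ) 1 ×ˢ Icc (0 : ℝ) 1) ×ˢ Icc ϑ θe)
  -- the comparison pair
  have hcomp : ∀ θ ∈ Icc ϑ θe, D * Real.cos (θ - ϑ) + c * θ ≤ up θ1 (f t - f s) + c * θ1 := by
    intro θ h3
    have h := hG _ (hfm s0) _ (hfm t0) θ h3
    rw [← hfr s0, ← hfr t0] at h
    have e : up θ (f t0 - f s0) = D * Real.cos (θ - ϑ) := by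
      unfold up
      rw [hre, him, Real.cos_sub]
      ring
    rw [e] at h
    exact h
  have hne : θ1 ≠ θe := by
    intro h
    have h1 := hcomp ϑ ⟨le_rfl, hϑ.le⟩
    rw [sub_self, Real.cos_zero, mul_one, h] at h1
    have h2 := hσm s hs t ht
    nlinarith
  have hne' : θ1 ≠ ϑ := by
    intro h
    -- the comparison pair is better a little to the right of `ϑ`
    obtain ⟨x, hx0, hx1, hx2⟩ : ∃ x : ℝ, 0 < x ∧ ϑ + x ≤ θe ∧ D * x < c := by
      refine ⟨min (θe - ϑ) (c / (2 * D)), lt_min (by linarith) (by positivity), ?_, ?_⟩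
      · have := min_le_left (θe - ϑ) (c / (2 * D))
        linarith
      · have := mul_le_mul_of_nonneg_left (min_le_right (θe - ϑ) (c / (2 * D))) hD.le
        have e : D * (c / (2 * D)) = c / 2 := by field_simp
        linarith
    have h1 := hcomp (ϑ + x) ⟨by linarith, hx1⟩
    have e : ϑ + x - ϑ = x := by ring
    rw [e, h] at h1
    have h2 : up ϑ (f t - f s) ≤ D := (up_le_norm _ _).trans (hdiam _ _)
    have h3 := Real.one_sub_sq_div_two_le_cos (x := x)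
    have h4 := mul_le_mul_of_nonneg_left h3 hD.le
    have h5 := mul_lt_mul_of_pos_right hx2 hx0
    nlinarith [mul_pos hc0 hx0]
  have h1 : ϑ < θ1 := lt_of_le_of_ne hθ1.1 (Ne.symm hne')
  have h2 : θ1 < θe := lt_of_le_of_ne hθ1.2 hne
  refine ⟨θ1, h1, h2, s, t, fun x => ?_, fun x => ?_, ?_⟩
  · have h := hG _ (hfm x) t ht θ1 hθ1
    rw [← hfr x, up_sub, up_sub] at h
    rw [up_sub]
    linarith
  · have h := hG s hs _ (hfm x) θ1 hθ1
    rw [← hfr x, up_sub, up_sub] at h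
    rw [up_sub]
    linarith
  · -- the derivative vanishes
    have hder : HasDerivAt (fun θ : ℝ => up θ (f t - f s) + c * θ) (-(rt θ1 (f t - f s)) + c) θ1 := by
      unfold up rt
      have d1 := (Real.hasDerivAt_cos θ1).const_mul (f t - f s).im
      have d2 := (Real.hasDerivAt_sin θ1).const_mul (f t - f s).re
      have d3 := (hasDerivAt_id θ1).const_mul c
      have d := (d1.sub d2).add d3
      refine d.congr_deriv ?_
      ring
    have hloc : IsLocalMax (fun θ : ℝ => up θ (f t - f s) + c * θ) θ1 := by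
      refine Filter.eventually_of_mem (Icc_mem_nhds h1 h2) fun θ hθ => ?_
      exact hG s hs t ht θ hθ
    have := hloc.hasDerivAt_eq_zero hder
    linarith

/-- A trapping direction on the right of a diametral direction. -/
theorem trap_right {f : ℝ → ℂ} {s0 t0 D ϑ θe : ℝ} (hf : Crv f) (hD : 0 < D) (hϑ : θe < ϑ)
    (hre : (f t0 - f s0).re = -(D * Real.sin ϑ)) (him : (f t0 - f s0).im = D * Real.cos ϑ)
    (hdiam : ∀ s t, ‖f t - f s‖ ≤ D) (hw : ∀ s t, up θe (f t - f s) < D) :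
    ∃ θ2 : ℝ, θe < θ2 ∧ θ2 < ϑ ∧ ∃ s t : ℝ, (∀ x, 0 ≤ up θ2 (f x - f s)) ∧
      (∀ x, 0 ≤ up θ2 (f t - f x)) ∧ rt θ2 (f t - f s) < 0 := by
  set g : ℝ → ℂ := fun x => -(starRingEnd ℂ) (f x) with hg
  have gre : ∀ s t, (g t - g s).re = -(f t - f s).re := fun s t => by
    simp only [hg, Complex.sub_re, Complex.neg_re, Complex.conj_re]
    ring
  have gim : ∀ s t, (g t - g s).im = (f t - f s).im := fun s t => by
    simp only [hg, Complex.sub_im, Complex.neg_im, Complex.conj_im]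
    ring
  have gup : ∀ θ s t, up θ (g t - g s) = up (-θ) (f t - f s) := fun θ s t => by
    unfold up
    rw [gre, gim, Real.cos_neg, Real.sin_neg]
    ring
  have grt : ∀ θ s t, rt θ (g t - g s) = -rt (-θ) (f t - f s) := fun θ s t => by
    unfold rt
    rw [gre, gim, Real.cos_neg, Real.sin_neg]
    ring
  have hgC : Crv g := by
    refine ⟨?_, fun t => ?_, fun s t h => ?_⟩
    · have := hf.cont
      have h2 := Complex.continuous_conj
      exact (h2.comp this).neg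
    · simp only [hg, hf.per]
    · exact hf.inj s t ((starRingEnd ℂ).injective (neg_injective h))
  obtain ⟨θ1, h1, h2, s, t, h3, h4, h5⟩ := trap_left (f := g) (s0 := s0) (t0 := t0) (D := D)
    (ϑ := -ϑ) (θe := -θe) hgC hD (by linarith) (by rw [gre, hre, Real.sin_neg]; ring)
    (by rw [gim, him, Real.cos_neg]) (fun s t => by
      have e : g t - g s = -(starRingEnd ℂ) (f t - f s) := by
        simp only [hg, map_sub]; ring
      rw [e, norm_neg, Complex.norm_conj]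
      exact hdiam s t) (fun s t => by rw [gup, neg_neg]; exact hw s t)
  refine ⟨-θ1, by linarith, by linarith, s, t, fun x => ?_, fun x => ?_, ?_⟩
  · rw [← gup]; exact h3 x
  · rw [← gup]; exact h4 x
  · rw [grt] at h5
    linarith

/-- All large aspect ratios, general form. -/
theorem large_general (hSUPP : Stmt_SUPP) (hMONO : Stmt_MONO) (hORI : Stmt_ORI)
    (γ : Circle → ℂ) (hγ : Continuous γ)
    (hinj : Function.Injective γ) (P Q : ℂ) (hP : P ∈ range γ) (hQ : Q ∈ range γ)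
    (hdiam : ∀ z ∈ range γ, ∀ w ∈ range γ, ‖z - w‖ ≤ ‖P - Q‖) (α β : ℝ) (hα : 0 < α) (hβ : 0 < β)
    (hαβ : α + β ≤ Real.pi / 2)
    (hwα : ∀ z ∈ range γ, ∀ w ∈ range γ,
      ((z - w) * (starRingEnd ℂ) (Complex.exp ((α : ℂ) * Complex.I) * (P - Q))).re < ‖P - Q‖ ^ 2)
    (hwβ : ∀ z ∈ range γ, ∀ w ∈ range γ,
      ((z - w) * (starRingEnd ℂ) (Complex.exp (((-β : ℝ) : ℂ) * Complex.I) * (P - Q))).re <
        ‖P - Q‖ ^ 2) :
    ∃ R : ℝ, 0 < R ∧ ∀ r : ℝ, R ≤ r → ∃ a v : ℂ, v ≠ 0 ∧ a ∈ range γ ∧ a + v ∈ range γ ∧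
      a + v + Complex.I * (r : ℂ) * v ∈ range γ ∧ a + Complex.I * (r : ℂ) * v ∈ range γ := by
  have hpi := Real.pi_pos
  obtain ⟨cP, rfl⟩ := hP
  obtain ⟨cQ, rfl⟩ := hQ
  -- the diameter is positive
  have hD : 0 < ‖γ cP - γ cQ‖ := by
    by_contra hcon
    have h0 : ‖γ cP - γ cQ‖ = 0 := le_antisymm (not_lt.1 hcon) (norm_nonneg _)
    have h1 := hdiam _ (mem_range_self (1 : Circle)) _ (mem_range_self (Circle.exp Real.pi))
    rw [h0] at h1
    have h2 : γ 1 = γ (Circle.exp Real.pi) :=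
      sub_eq_zero.1 (norm_eq_zero.1 (le_antisymm h1 (norm_nonneg _)))
    have h3 := hinj h2
    have h4 := congrArg (fun c : Circle => (c : ℂ)) h3
    simp only [Circle.coe_one, Circle.coe_exp, Complex.exp_pi_mul_I] at h4
    have h5 := congrArg Complex.re h4
    rw [Complex.one_re, Complex.neg_re, Complex.one_re] at h5
    linarith
  set D := ‖γ cP - γ cQ‖ with hDdef
  -- the frame: `u (P - Q) = i D`
  set u : ℂ := Complex.I * (starRingEnd ℂ) (γ cP - γ cQ) * ((1 / D : ℝ) : ℂ) with hu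
  have hw2 : (γ cP - γ cQ) * (starRingEnd ℂ) (γ cP - γ cQ) = ((D ^ 2 : ℝ) : ℂ) := by
    rw [Complex.mul_conj, Complex.normSq_eq_norm_sq]
  have huPQ : u * (γ cP - γ cQ) = Complex.I * (D : ℂ) := by
    have e : u * (γ cP - γ cQ) = Complex.I * (((γ cP - γ cQ) * (starRingEnd ℂ) (γ cP - γ cQ)) *
        ((1 / D : ℝ) : ℂ)) := by rw [hu]; ring
    rw [e, hw2, ← Complex.ofReal_mul]
    congr 2
    field_simp
  have hun : ‖u‖ = 1 := by
    have h : ‖u‖ * ‖γ cP - γ cQ‖ = D := by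
      rw [← norm_mul u (γ cP - γ cQ), huPQ, norm_mul, Complex.norm_I, one_mul, Complex.norm_real,
        Real.norm_eq_abs, abs_of_pos hD]
    rw [← hDdef] at h
    exact mul_right_cancel₀ hD.ne' (by rw [h, one_mul])
  have hu0 : u ≠ 0 := fun h => by
    rw [h, norm_zero] at hun
    exact zero_ne_one hun
  -- widths in the frame
  have hup : ∀ (φ : ℝ) (z w : ℂ), up φ (u * (z - w)) * D =
      ((z - w) * (starRingEnd ℂ) (Complex.exp ((φ : ℂ) * Complex.I) * (γ cP - γ cQ))).re := by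
    intro φ z w
    have e1 : ∀ x : ℂ, up φ x = (x * (starRingEnd ℂ) (Complex.I *
        Complex.exp ((φ : ℂ) * Complex.I))).re := fun x => by
      unfold up
      rw [map_mul, Complex.conj_I]
      simp only [Complex.mul_re, Complex.mul_im, Complex.neg_re, Complex.neg_im, Complex.I_re,
        Complex.I_im, Complex.conj_re, Complex.conj_im, Complex.exp_ofReal_mul_I_re,
        Complex.exp_ofReal_mul_I_im]
      ring
    have e2 : u * (z - w) * (starRingEnd ℂ) (Complex.I * Complex.exp ((φ : ℂ) * Complex.I)) =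
        ((z - w) * (starRingEnd ℂ) (Complex.exp ((φ : ℂ) * Complex.I) * (γ cP - γ cQ))) *
          ((1 / D : ℝ) : ℂ) := by
      rw [hu, map_mul, map_mul, Complex.conj_I]
      have e3 : Complex.I * (starRingEnd ℂ) (γ cP - γ cQ) * ((1 / D : ℝ) : ℂ) * (z - w) *
          (-Complex.I * (starRingEnd ℂ) (Complex.exp ((φ : ℂ) * Complex.I))) =
          (-(Complex.I * Complex.I)) * ((z - w) * ((starRingEnd ℂ) (Complex.exp ((φ : ℂ) *
            Complex.I)) * (starRingEnd ℂ) (γ cP - γ cQ))) * ((1 / D : ℝ) : ℂ) := by ring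
      rw [e3, Complex.I_mul_I]
      ring
    rw [e1, e2, Complex.re_mul_ofReal]
    field_simp
  -- the parametrised curve
  set F : ℝ → ℂ := fun t => u * γ (Circle.exp (2 * Real.pi * t)) with hFdef
  have hFr : ∀ t, ∃ z ∈ range γ, F t = u * z := fun t => ⟨_, mem_range_self _, rfl⟩
  have hF : Crv F := by
    refine ⟨?_, fun t => ?_, fun s t h => ?_⟩
    · have h1 : Continuous (fun t : ℝ => Circle.exp (2 * Real.pi * t)) :=
        Circle.exp.continuous.comp (by fun_prop)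
      exact continuous_const.mul (hγ.comp h1)
    · simp only [hFdef]
      have e : 2 * Real.pi * (t + 1) = 2 * Real.pi * t + 2 * Real.pi := by ring
      rw [e, Circle.periodic_exp]
    · obtain ⟨m, hm⟩ := Circle.exp_eq_exp.1 (hinj (mul_left_cancel₀ hu0 h))
      refine ⟨m, ?_⟩
      have h2 : (0 : ℝ) < 2 * Real.pi := by linarith
      have h3 : 2 * Real.pi * s = 2 * Real.pi * (t + m) := by rw [hm]; ring
      exact mul_left_cancel₀ h2.ne' h3
  obtain ⟨xP, rfl⟩ := Circle.exp_surjective cP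
  obtain ⟨xQ, rfl⟩ := Circle.exp_surjective cQ
  have hpp : (2 : ℝ) * Real.pi ≠ 0 := by positivity
  have eP : F (xP / (2 * Real.pi)) = u * γ (Circle.exp xP) := by
    simp only [hFdef]
    rw [mul_div_cancel₀ _ hpp]
  have eQ : F (xQ / (2 * Real.pi)) = u * γ (Circle.exp xQ) := by
    simp only [hFdef]
    rw [mul_div_cancel₀ _ hpp]
  set s0 := xQ / (2 * Real.pi) with hs0
  set t0 := xP / (2 * Real.pi) with ht0
  have eD : F t0 - F s0 = Complex.I * (D : ℂ) := by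
    rw [eP, eQ, ← mul_sub, huPQ]
  have hre : (F t0 - F s0).re = -(D * Real.sin 0) := by
    rw [eD, Real.sin_zero]
    simp
  have him : (F t0 - F s0).im = D * Real.cos 0 := by
    rw [eD, Real.cos_zero]
    simp
  have hdiamF : ∀ s t, ‖F t - F s‖ ≤ D := fun s t => by
    simp only [hFdef]
    rw [← mul_sub, norm_mul, hun, one_mul]
    exact hdiam _ (mem_range_self _) _ (mem_range_self _)
  have hwF : ∀ (φ : ℝ), (∀ z ∈ range γ, ∀ w ∈ range γ,
      ((z - w) * (starRingEnd ℂ) (Complex.exp ((φ : ℂ) * Complex.I) *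
        (γ (Circle.exp xP) - γ (Circle.exp xQ)))).re < D ^ 2) → ∀ s t, up φ (F t - F s) < D := by
    intro φ h s t
    simp only [hFdef]
    rw [← mul_sub]
    have h1 := h _ (mem_range_self (Circle.exp (2 * Real.pi * t))) _
      (mem_range_self (Circle.exp (2 * Real.pi * s)))
    rw [← hup] at h1
    by_contra hcon
    push Not at hcon
    have := mul_le_mul_of_nonneg_right hcon hD.le
    nlinarith
  obtain ⟨f, θ, hfF, hf, hθ⟩ := hORI F s0 t0 D 0 hF hD hre him hdiamF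
  -- the parameters of the diametral pair for `f`
  obtain ⟨s1, t1, hre', him', hdiam', hw1', hw2', hrange'⟩ : ∃ s1 t1 : ℝ,
      (f t1 - f s1).re = -(D * Real.sin 0) ∧ (f t1 - f s1).im = D * Real.cos 0 ∧
      (∀ s t, ‖f t - f s‖ ≤ D) ∧ (∀ s t, up α (f t - f s) < D) ∧
      (∀ s t, up (-β) (f t - f s) < D) ∧ ∀ t, ∃ z ∈ range γ, f t = u * z := by
    rcases hfF with rfl | rfl
    · exact ⟨s0, t0, hre, him, hdiamF, hwF α hwα, hwF (-β) hwβ, hFr⟩
    · refine ⟨-s0, -t0, ?_, ?_, fun s t => hdiamF _ _, fun s t => hwF α hwα _ _,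
        fun s t => hwF (-β) hwβ _ _, fun t => hFr _⟩
      · simp only [neg_neg]; exact hre
      · simp only [neg_neg]; exact him
  obtain ⟨θ1, a1, a2, sp, tm, b1, b2, b3⟩ := trap_left hf hD hα hre' him' hdiam' hw1'
  obtain ⟨θ2, c1, c2, sm, tp, d1, d2, d3⟩ := trap_right hf hD (show -β < 0 by linarith) hre' him'
    hdiam' hw2'
  obtain ⟨R, hR, hr⟩ := assem hSUPP hMONO hf hθ (θ1 := θ1) (θ2 := θ2) (by linarith) (by linarith)
    (by linarith) (by linarith) b1 b2 b3 d1 d2 d3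
  refine ⟨R, hR, fun r hrR => ?_⟩
  obtain ⟨s, s', t, t', v, hv, e1, e2, e3⟩ := hr r hrR
  obtain ⟨z1, hz1, f1⟩ := hrange' s
  obtain ⟨z2, hz2, f2⟩ := hrange' s'
  obtain ⟨z3, hz3, f3⟩ := hrange' t'
  obtain ⟨z4, hz4, f4⟩ := hrange' t
  have j : ∀ w : ℂ, u * (w / u) = w := fun w => mul_div_cancel₀ w hu0
  refine ⟨z1, v / u, div_ne_zero hv hu0, hz1, ?_, ?_, ?_⟩
  · have : z1 + v / u = z2 := mul_left_cancel₀ hu0 (by rw [mul_add, j, ← f1, ← f2, e1])
    rw [this]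
    exact hz2
  · have : z1 + v / u + Complex.I * (r : ℂ) * (v / u) = z4 := mul_left_cancel₀ hu0 (by
      have e : u * (z1 + v / u + Complex.I * (r : ℂ) * (v / u)) = u * z1 + u * (v / u) +
        Complex.I * (r : ℂ) * (u * (v / u)) := by ring
      rw [e, j, ← f1, ← f4, e3])
    rw [this]
    exact hz4
  · have : z1 + Complex.I * (r : ℂ) * (v / u) = z3 := mul_left_cancel₀ hu0 (by
      have e : u * (z1 + Complex.I * (r : ℂ) * (v / u)) = u * z1 +
        Complex.I * (r : ℂ) * (u * (v / u)) := by ring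
      rw [e, j, ← f1, ← f3, e2])
    rw [this]
    exact hz3

end Pool.MP_7ec17a_gt.D
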